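import Pool.Agent.H60.Besov.Sched

namespace Pool.Agent.H60.Besov

open Finset

section agree

variable {n x A : ℕ} (hx : 1 ≤ x) (hA : 1 ≤ A)

lemma sel_congr (m : ℕ) {b b' : ℕ → Dg n}
    (h : ∀ o, o < jj x A m → b (TT n x A m + o) = b' (TT n x A m + o)) :
    sel n x A m b = sel n x A m b' := by
  unfold sel
  congr 2
  funext i
  exact h i i.2

/-- the selecting positions -/
def SP (n x A : ℕ) : Set ℕ := {i | ∃ m o, o < jj x A m ∧ i = TT n x A m + o}

include hx hA in
lemma not_frz_of_SP {i : ℕ} (hi : i ∈ SP n x A) (b : ℕ → Dg n) : ¬ frz n x A i b := by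
  obtain ⟨m, o, ho, rfl⟩ := hi
  exact not_frz_of_lt hx hA m o ho b

include hx hA in
lemma frz_congr {i : ℕ} {b b' : ℕ → Dg n} (h : ∀ s ∈ SP n x A, s < i → b s = b' s) :
    frz n x A i b ↔ frz n x A i b' := by
  obtain ⟨m, o, ho, rfl⟩ := exists_pos (n := n) hx hA i
  by_cases hj : o < jj x A m
  · have h1 := not_frz_of_lt (n := n) hx hA m o hj b
    have h2 := not_frz_of_lt (n := n) hx hA m o hj b'
    tauto
  · have hs : sel n x A m b = sel n x A m b' := by
      apply sel_congr
      intro o' ho'
      exact h _ ⟨m, o', ho', rfl⟩ (by omega)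
    unfold frz
    rw [st_add hx hA m o ho]
    simp only [hs]

include hx hA in
lemma agree_iff (k : ℕ) (b b' : ℕ → Dg n) :
    (∀ i < k, dig n x A i b = dig n x A i b') ↔ (∀ i < k, ¬ frz n x A i b → b' i = b i) := by
  constructor
  · intro h i hi hf
    have hS : ∀ s ∈ SP n x A, s < i → b s = b' s := by
      intro s hs hsi
      have := h s (by omega)
      unfold dig at this
      rwa [if_neg (not_frz_of_SP hx hA hs b), if_neg (not_frz_of_SP hx hA hs b')] at this
    have hf' : ¬ frz n x A i b' := fun h' => hf ((frz_congr hx hA hS).2 h')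
    have := h i hi
    unfold dig at this
    rw [if_neg hf, if_neg hf'] at this
    exact this.symm
  · intro h i hi
    have hS : ∀ s ∈ SP n x A, s < i → b s = b' s := by
      intro s hs hsi
      exact (h s (by omega) (not_frz_of_SP hx hA hs b)).symm
    have hf' := frz_congr hx hA hS
    unfold dig
    by_cases hf : frz n x A i b
    · rw [if_pos hf, if_pos (hf'.1 hf)]
    · rw [if_neg hf, if_neg (fun h' => hf (hf'.2 h')), h i hi hf]

include hx hA in
lemma fr_congr (k : ℕ) {b b' : ℕ → Dg n} (h : ∀ i < k, dig n x A i b = dig n x A i b') :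
    fr n x A k b = fr n x A k b' := by
  classical
  have h1 := (agree_iff hx hA k b b').1 h
  unfold fr
  congr 1
  apply filter_congr
  intro i hi
  rw [mem_range] at hi
  rw [not_iff_not]
  apply frz_congr hx hA
  intro s hs hsi
  exact (h1 s (by omega) (not_frz_of_SP hx hA hs b)).symm

end agree

/-! ### counting -/

/-- extension of a finite sequence by zero -/
def ext {n N : ℕ} (v : Fin N → Dg n) : ℕ → Dg n := fun i => if h : i < N then v ⟨i, h⟩ else 0

lemma ext_apply {n N : ℕ} (v : Fin N → Dg n) (i : Fin N) : ext v i = v i := by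
  simp [ext]

lemma card_Dg (n : ℕ) : Fintype.card (Dg n) = 2 ^ n := by simp

open Classical in
lemma card_fix {n N : ℕ} (S : Finset (Fin N)) (c : Fin N → Dg n) :
    (univ.filter fun v : Fin N → Dg n => ∀ i ∈ S, v i = c i).card * (2 ^ n) ^ S.card =
      (2 ^ n) ^ N := by
  have e : (univ.filter fun v : Fin N → Dg n => ∀ i ∈ S, v i = c i) =
      Fintype.piFinset (fun i => if i ∈ S then {c i} else univ) := by
    ext v
    simp only [mem_filter, mem_univ, true_and, Fintype.mem_piFinset]
    constructor
    · intro h i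
      by_cases hi : i ∈ S
      · simp [hi, h i hi]
      · simp [hi]
    · intro h i hi
      have := h i
      simpa [hi] using this
  rw [e, Fintype.card_piFinset]
  have : ∀ i, ((if i ∈ S then {c i} else univ : Finset (Dg n))).card =
      if i ∈ S then 1 else 2 ^ n := by
    intro i
    by_cases hi : i ∈ S
    · simp [hi]
    · simp [hi]
  simp_rw [this]
  have h3 : (∏ i : Fin N, if i ∈ S then 1 else 2 ^ n) * (∏ i : Fin N, if i ∈ S then 2 ^ n else 1) =
      (2 ^ n) ^ N := by
    rw [← prod_mul_distrib]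
    have : ∀ i : Fin N, ((if i ∈ S then 1 else 2 ^ n) * (if i ∈ S then 2 ^ n else 1) : ℕ) = 2 ^ n := by
      intro i; split_ifs <;> simp
    simp_rw [this]
    simp
  rw [← h3]
  congr 1
  rw [prod_ite]
  simp

section

variable {n x A : ℕ} (hx : 1 ≤ x) (hA : 1 ≤ A)

open Classical in
include hx hA in
/-- number of `v` with given first `k` digits -/
lemma card_agree {N k : ℕ} (hk : k ≤ N) (b : ℕ → Dg n) :
    (univ.filter fun v : Fin N → Dg n => ∀ i < k, dig n x A i (ext v) = dig n x A i b).card *
      (2 ^ n) ^ (fr n x A k b) = (2 ^ n) ^ N := by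
  set S : Finset (Fin N) := univ.filter fun i : Fin N => (i : ℕ) < k ∧ ¬ frz n x A i b with hS
  have h1 : (univ.filter fun v : Fin N → Dg n =>
        ∀ i < k, dig n x A i (ext v) = dig n x A i b) =
      univ.filter fun v : Fin N → Dg n => ∀ i ∈ S, v i = b i := by
    ext v
    simp only [mem_filter, mem_univ, true_and]
    have h := agree_iff hx hA k b (ext v)
    constructor
    · intro hv i hi
      rw [hS, mem_filter] at hi
      have := h.1 (fun i hi => (hv i hi).symm) i hi.2.1 hi.2.2
      rwa [ext_apply] at this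
    · intro hv i hi
      refine (h.2 ?_ i hi).symm
      intro i hi hf
      have := hv ⟨i, by omega⟩ (by rw [hS]; simp [hi, hf])
      simpa [ext, show i < N by omega] using this
  have h2 : S.card = fr n x A k b := by
    unfold fr
    rw [hS]
    apply card_bij (fun (i : Fin N) _ => (i : ℕ))
    · intro i hi
      simp only [mem_filter, mem_univ, true_and, mem_range] at hi ⊢
      exact hi
    · intro i _ j _ hij
      exact Fin.ext hij
    · intro i hi
      simp only [mem_filter, mem_range] at hi
      exact ⟨⟨i, by omega⟩, by simp [hi.1, hi.2], rfl⟩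
  rw [h1, ← h2]
  exact card_fix S _

open Classical in
/-- number of `v` selected in slot `t` -/
lemma card_sel {N m : ℕ} (hN : TT n x A m + jj x A m ≤ N) (t : ℕ) (ht : t < MM n x A m) :
    (univ.filter fun v : Fin N → Dg n => sel n x A m (ext v) = t).card *
      (2 ^ n) ^ (jj x A m) = (2 ^ n) ^ N := by
  set S : Finset (Fin N) :=
    univ.filter fun i : Fin N => TT n x A m ≤ (i : ℕ) ∧ (i : ℕ) < TT n x A m + jj x A m with hS
  set c₀ : Fin (jj x A m) → Dg n := (Fintype.equivFin (Fin (jj x A m) → Dg n)).symm ⟨t, ht⟩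
    with hc₀
  set c : Fin N → Dg n := fun i =>
    if h : (i : ℕ) - TT n x A m < jj x A m then c₀ ⟨i - TT n x A m, h⟩ else 0 with hc
  have h1 : (univ.filter fun v : Fin N → Dg n => sel n x A m (ext v) = t) =
      univ.filter fun v : Fin N → Dg n => ∀ i ∈ S, v i = c i := by
    ext v
    simp only [mem_filter, mem_univ, true_and]
    have e : sel n x A m (ext v) = t ↔
        (fun i : Fin (jj x A m) => ext v (TT n x A m + i)) = c₀ := by
      unfold sel
      rw [hc₀, Equiv.eq_symm_apply]
      constructor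
      · intro h; exact Fin.ext h
      · intro h; rw [h]
    rw [e, funext_iff]
    constructor
    · intro h i hi
      rw [hS] at hi
      simp only [mem_filter, mem_univ, true_and] at hi
      have h2 : (i : ℕ) - TT n x A m < jj x A m := by omega
      have := h ⟨i - TT n x A m, h2⟩
      simp only at this
      rw [show TT n x A m + ((i : ℕ) - TT n x A m) = i by omega, ext_apply] at this
      rw [this, hc]
      simp [h2]
    · intro h i
      have hi := i.2
      have h2 := h ⟨TT n x A m + i, by omega⟩ (by rw [hS]; simp)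
      simp only [ext, show TT n x A m + (i : ℕ) < N by omega, dite_true]
      rw [h2, hc]
      simp
  have h2 : S.card = jj x A m := by
    rw [hS]
    have : (range (jj x A m)).card = jj x A m := card_range _
    rw [← this]
    symm
    apply card_bij (fun i hi => (⟨TT n x A m + i, by rw [mem_range] at hi; omega⟩ : Fin N))
    · intro i hi
      rw [mem_range] at hi
      simp [hi]
    · intro i _ j _ hij
      simp only [Fin.mk.injEq] at hij
      omega
    · intro i hi
      simp only [mem_filter, mem_univ, true_and] at hi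
      exact ⟨i - TT n x A m, by rw [mem_range]; omega, Fin.ext (by simp; omega)⟩
  rw [h1, ← h2]
  exact card_fix S c

include hx hA in
/-- height bounds in super-window `m` -/
lemma ht_bound (m o : ℕ) (ho : o < len n x A m) :
    (∀ b, ht n x A (TT n x A m + o) b ≤ -((x * hh A m : ℕ) : ℤ)) ∨
    (TT n x A m + jj x A m ≤ TT n x A m + o ∧ ∃ t, t < MM n x A m ∧
      ∀ b, ht n x A (TT n x A m + o) b ≤ -((x * hh A m : ℕ) : ℤ) ∨
        (sel n x A m b = t ∧ ht n x A (TT n x A m + o) b ≤ ((x * (m + 1) : ℕ) : ℤ))) := by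
  by_cases hj : o ≤ jj x A m
  · left
    intro b
    rw [(ht_window hx hA m b (ht_TT hx hA m b)).1 o hj]
    omega
  · right
    refine ⟨by omega, ?_⟩
    set q := (o - jj x A m) / ww x A m with hq
    set s := (o - jj x A m) % ww x A m with hs
    have hw := ww_pos (x := x) (A := A) m
    have hs' : s < ww x A m := Nat.mod_lt _ hw
    have hos : o = jj x A m + q * ww x A m + s := by
      have := Nat.div_add_mod (o - jj x A m) (ww x A m)
      rw [← hq, ← hs, mul_comm] at this
      omega
    have hqM : q < MM n x A m := by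
      rw [hq, Nat.div_lt_iff_lt_mul hw]
      unfold len at ho
      omega
    refine ⟨q, hqM, fun b => ?_⟩
    have h := (ht_window hx hA m b (ht_TT hx hA m b)).2 q hqM s hs'.le
    rw [← hos] at h
    rw [h]
    have hmono : ((x * hh A m : ℕ) : ℤ) ≤ ((x * hh A (m + 1) : ℕ) : ℤ) := by
      have : hh A m ≤ hh A (m + 1) := by simp only [hh]; omega
      exact_mod_cast Nat.mul_le_mul_left x this
    by_cases hsel : sel n x A m b = q
    · right
      refine ⟨hsel, ?_⟩
      unfold rel
      rw [if_pos hsel]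
      have h3 : (x : ℤ) * (gg A m : ℤ) = ((x * hh A (m + 1) : ℕ) : ℤ) + ((x * (m + 1) : ℕ) : ℤ) := by
        unfold gg; push_cast; ring
      split_ifs with h4
      · have : (x : ℤ) * (s : ℤ) ≤ (x : ℤ) * (gg A m : ℤ) :=
          mul_le_mul_of_nonneg_left (by exact_mod_cast h4) (by positivity)
        linarith
      · push Not at h4
        have : (gg A m : ℤ) ≤ s := by exact_mod_cast h4.le
        linarith
    · left
      unfold rel
      rw [if_neg hsel]
      have : (0 : ℤ) ≤ ((s % (x + 1) : ℕ) : ℤ) := by positivity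
      linarith

/-- the bound for the exponential moment in super-window `m` -/
noncomputable def ep (n x A : ℕ) (κ : ℝ) (m : ℕ) : ℝ :=
  (2 : ℝ) ^ (-(κ * (x * hh A m))) + (2 : ℝ) ^ (-((n : ℝ) * jj x A m)) * (2 : ℝ) ^ (κ * (x * (m + 1)))

lemma ep_pos (κ : ℝ) (m : ℕ) : 0 < ep n x A κ m := by unfold ep; positivity

open Classical in
include hx hA in
lemma moment_bound {κ : ℝ} (hκ : 0 < κ) {N k : ℕ} (hk : k ≤ N) :
    ∑ v : Fin N → Dg n, (2 : ℝ) ^ (κ * ht n x A k (ext v)) ≤
      ((2 : ℝ) ^ n) ^ N * ep n x A κ (st n x A k).1 := by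
  obtain ⟨m, o, ho, rfl⟩ := exists_pos (n := n) hx hA k
  rw [st_add hx hA m o ho]
  have hcard : (univ : Finset (Fin N → Dg n)).card = (2 ^ n) ^ N := by
    rw [card_univ, Fintype.card_pi]; simp
  have hlow : ∀ z : ℤ, z ≤ -((x * hh A m : ℕ) : ℤ) →
      (2 : ℝ) ^ (κ * z) ≤ (2 : ℝ) ^ (-(κ * (x * hh A m))) := by
    intro z hz
    apply Real.rpow_le_rpow_of_exponent_le (by norm_num)
    have : (z : ℝ) ≤ -(x * hh A m) := by exact_mod_cast hz
    nlinarith
  rcases ht_bound (n := n) hx hA m o ho with h | ⟨hN, t, htM, h⟩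
  · calc ∑ v : Fin N → Dg n, (2 : ℝ) ^ (κ * ht n x A (TT n x A m + o) (ext v))
        ≤ ∑ v : Fin N → Dg n, (2 : ℝ) ^ (-(κ * (x * hh A m))) :=
          sum_le_sum fun v _ => hlow _ (h _)
      _ = ((2 : ℝ) ^ n) ^ N * (2 : ℝ) ^ (-(κ * (x * hh A m))) := by
          rw [sum_const, hcard, nsmul_eq_mul]; push_cast; ring
      _ ≤ _ := by
          apply mul_le_mul_of_nonneg_left _ (by positivity)
          unfold ep
          have : 0 < (2 : ℝ) ^ (-((n : ℝ) * jj x A m)) * (2 : ℝ) ^ (κ * (x * (m + 1))) := by
            positivity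
          linarith
  · have hsel := card_sel (n := n) (x := x) (A := A) (N := N) (m := m) (by omega) t htM
    have hpt : ∀ v : Fin N → Dg n, (2 : ℝ) ^ (κ * ht n x A (TT n x A m + o) (ext v)) ≤
        (2 : ℝ) ^ (-(κ * (x * hh A m))) +
          if sel n x A m (ext v) = t then (2 : ℝ) ^ (κ * (x * (m + 1))) else 0 := by
      intro v
      rcases h (ext v) with h1 | ⟨h1, h2⟩
      · have : (0 : ℝ) ≤ if sel n x A m (ext v) = t then (2 : ℝ) ^ (κ * (x * (m + 1))) else 0 := by
          split_ifs <;> positivity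
        linarith [hlow _ h1]
      · rw [if_pos h1]
        have h3 : (2 : ℝ) ^ (κ * ht n x A (TT n x A m + o) (ext v)) ≤
            (2 : ℝ) ^ (κ * (x * (m + 1))) := by
          apply Real.rpow_le_rpow_of_exponent_le (by norm_num)
          have : (ht n x A (TT n x A m + o) (ext v) : ℝ) ≤ x * (m + 1) := by exact_mod_cast h2
          nlinarith
        have : (0 : ℝ) < (2 : ℝ) ^ (-(κ * (x * hh A m))) := by positivity
        linarith
    have hsel' : ((univ.filter fun v : Fin N → Dg n => sel n x A m (ext v) = t).card : ℝ) =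
        ((2 : ℝ) ^ n) ^ N * (2 : ℝ) ^ (-((n : ℝ) * jj x A m)) := by
      have h1 : ((univ.filter fun v : Fin N → Dg n => sel n x A m (ext v) = t).card : ℝ) *
          ((2 : ℝ) ^ n) ^ (jj x A m) = ((2 : ℝ) ^ n) ^ N := by exact_mod_cast hsel
      have h2 : (2 : ℝ) ^ (-((n : ℝ) * jj x A m)) = (((2 : ℝ) ^ n) ^ (jj x A m))⁻¹ := by
        rw [Real.rpow_neg (by norm_num), ← pow_mul]
        congr 1
        exact_mod_cast Real.rpow_natCast 2 (n * jj x A m)
      rw [h2, ← h1, mul_assoc, mul_inv_cancel₀ (by positivity), mul_one]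
    calc ∑ v : Fin N → Dg n, (2 : ℝ) ^ (κ * ht n x A (TT n x A m + o) (ext v))
        ≤ ∑ v : Fin N → Dg n, ((2 : ℝ) ^ (-(κ * (x * hh A m))) +
          if sel n x A m (ext v) = t then (2 : ℝ) ^ (κ * (x * (m + 1))) else 0) :=
          sum_le_sum fun v _ => hpt v
      _ = ((2 : ℝ) ^ n) ^ N * ep n x A κ m := by
          rw [sum_add_distrib, sum_const, hcard, nsmul_eq_mul, ← sum_filter, sum_const,
            nsmul_eq_mul, hsel']
          unfold ep
          push_cast; ring

end

end Pool.Agent.H60.Besov
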