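import Pool.Agent.H60.Besov.Haus

namespace Pool.Agent.H60.Besov

open Finset MeasureTheory Filter Topology
open scoped ENNReal

section

variable {n x A : ℕ} {β : ℝ}

/-- average of `u` over the cube of generation `k` -/
noncomputable def av (x A : ℕ) (β : ℝ) (u : Eu n → ℝ) (k : ℕ) (b : ℕ → Dg n) : ℝ :=
  ((β ^ k) ^ n)⁻¹ * ∫ y in cube n x A β k b, u y

/-- the ball of possible increments in generation `k` -/
def Bk (n : ℕ) (β : ℝ) (k : ℕ) : Set (Eu n) := Metric.closedBall 0 (Real.sqrt n * β ^ k)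

lemma sub_av_le (h0 : 0 < β) {u : Eu n → ℝ} (hu : Continuous u) (hc : HasCompactSupport u)
    (k : ℕ) (b : ℕ → Dg n) {z : Eu n} (hz : z ∈ cube n x A β k b) :
    ‖u z - av x A β u k b‖ₑ ≤
      ENNReal.ofReal ((β ^ k) ^ n)⁻¹ * ∫⁻ h in Bk n β k, ‖u (z + h) - u z‖ₑ := by
  have hV : 0 < (β ^ k) ^ n := by positivity
  have hint : Integrable u := hu.integrable_of_hasCompactSupport hc
  have hvol : volume (cube n x A β k b) ≠ ∞ := by
    rw [volume_cube h0]; exact ENNReal.ofReal_ne_top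
  have e : u z - av x A β u k b = ((β ^ k) ^ n)⁻¹ * ∫ y in cube n x A β k b, (u z - u y) := by
    rw [integral_sub (integrableOn_const (C := u z) hvol) hint.integrableOn]
    rw [setIntegral_const, measureReal_def, volume_cube h0, ENNReal.toReal_ofReal hV.le]
    unfold av
    rw [smul_eq_mul, mul_sub, ← mul_assoc, inv_mul_cancel₀ hV.ne', one_mul]
  rw [e, enorm_mul]
  have e2 : ‖((β ^ k) ^ n)⁻¹‖ₑ = ENNReal.ofReal ((β ^ k) ^ n)⁻¹ := by
    rw [Real.enorm_eq_ofReal (by positivity)]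
  rw [e2]
  gcongr
  refine (enorm_integral_le_lintegral_enorm _).trans ?_
  rw [← lintegral_indicator (measurableSet_cube k b),
    ← lintegral_add_left_eq_self _ z, ← lintegral_indicator (by
      unfold Bk; exact Metric.isClosed_closedBall.measurableSet)]
  apply lintegral_mono
  intro h
  simp only
  by_cases hh : z + h ∈ cube n x A β k b
  · have hB : h ∈ Bk n β k := by
      unfold Bk
      rw [mem_closedBall_zero_iff]
      have := dist_of_mem_ccube (pow_pos h0 k).le (cube_subset_ccube k b hh)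
        (cube_subset_ccube k b hz)
      simpa using this
    rw [Set.indicator_of_mem hh, Set.indicator_of_mem hB, ← enorm_neg]
    simp
  · rw [Set.indicator_of_notMem hh]; exact bot_le

/-- the bound for the difference of consecutive averages -/
lemma av_diff_le (h0 : 0 < β) (h1 : β < 1 / 2) {u : Eu n → ℝ} (hu : Continuous u)
    (hc : HasCompactSupport u) (k : ℕ) (b : ℕ → Dg n) :
    ‖av x A β u (k + 1) b - av x A β u k b‖ₑ ≤
      ∫⁻ z in cube n x A β (k + 1) b, ENNReal.ofReal ((β ^ (k + 1)) ^ n)⁻¹ *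
        (ENNReal.ofReal ((β ^ k) ^ n)⁻¹ * ∫⁻ h in Bk n β k, ‖u (z + h) - u z‖ₑ) := by
  have hV : 0 < (β ^ (k + 1)) ^ n := by positivity
  have hint : Integrable u := hu.integrable_of_hasCompactSupport hc
  have hvol : volume (cube n x A β (k + 1) b) ≠ ∞ := by
    rw [volume_cube h0]; exact ENNReal.ofReal_ne_top
  have e : av x A β u (k + 1) b - av x A β u k b =
      ((β ^ (k + 1)) ^ n)⁻¹ * ∫ z in cube n x A β (k + 1) b, (u z - av x A β u k b) := by
    rw [integral_sub hint.integrableOn (integrableOn_const (C := av x A β u k b) hvol)]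
    rw [setIntegral_const, measureReal_def, volume_cube h0, ENNReal.toReal_ofReal hV.le]
    conv_lhs => rw [av]
    rw [smul_eq_mul, mul_sub, ← mul_assoc, inv_mul_cancel₀ hV.ne', one_mul]
  rw [e, enorm_mul]
  have e2 : ‖((β ^ (k + 1)) ^ n)⁻¹‖ₑ = ENNReal.ofReal ((β ^ (k + 1)) ^ n)⁻¹ := by
    rw [Real.enorm_eq_ofReal (by positivity)]
  rw [e2, lintegral_const_mul' _ _ ENNReal.ofReal_ne_top]
  gcongr
  refine (enorm_integral_le_lintegral_enorm _).trans ?_
  apply setLIntegral_mono' (measurableSet_cube _ _)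
  intro z hz
  exact sub_av_le h0 hu hc k b (cube_succ_subset h0 h1 k b hz)

/-- the normalised density of generation `k` -/
noncomputable def rho (n x A : ℕ) (β : ℝ) (N k : ℕ) (z : Eu n) : ℝ≥0∞ :=
  ENNReal.ofReal (((2 : ℝ) ^ n) ^ N)⁻¹ * ∑ v : Fin N → Dg n,
    (cube n x A β k (ext v)).indicator (fun _ => ENNReal.ofReal ((β ^ k) ^ n)⁻¹) z

lemma measurable_rho (N k : ℕ) : Measurable (rho n x A β N k) := by
  unfold rho
  apply Measurable.const_mul
  apply Finset.measurable_fun_sum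
  intro v _
  exact measurable_const.indicator (measurableSet_cube _ _)

open Classical in
lemma rho_le (hx : 1 ≤ x) (hA : 1 ≤ A) (h0 : 0 < β) (h1 : β < 1 / 2) {N k : ℕ} (hk : k ≤ N)
    (b : ℕ → Dg n) {z : Eu n} (hz : z ∈ cube n x A β k b) :
    rho n x A β N k z ≤
      ENNReal.ofReal (((β ^ k) ^ n)⁻¹ * (((2 : ℝ) ^ n) ^ (fr n x A k b))⁻¹) := by
  have h2 : ∑ v : Fin N → Dg n,
      (cube n x A β k (ext v)).indicator (fun _ => ENNReal.ofReal ((β ^ k) ^ n)⁻¹) z ≤
      ENNReal.ofReal (((2 : ℝ) ^ n) ^ N * (((2 : ℝ) ^ n) ^ (fr n x A k b))⁻¹) *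
        ENNReal.ofReal ((β ^ k) ^ n)⁻¹ := by
    calc ∑ v : Fin N → Dg n,
        (cube n x A β k (ext v)).indicator (fun _ => ENNReal.ofReal ((β ^ k) ^ n)⁻¹) z
        ≤ ∑ v : Fin N → Dg n, if ∀ i < k, dig n x A i (ext v) = dig n x A i b then
            ENNReal.ofReal ((β ^ k) ^ n)⁻¹ else 0 := by
          apply sum_le_sum
          intro v _
          by_cases hv : z ∈ cube n x A β k (ext v)
          · rw [Set.indicator_of_mem hv, if_pos (digits_of_mem_cube h0 h1 k hv hz)]
          · rw [Set.indicator_of_notMem hv]; exact bot_le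
      _ = _ := by
          rw [← sum_filter, sum_const, nsmul_eq_mul]
          congr 1
          have h := card_agree (n := n) hx hA hk b
          have h' : ((univ.filter fun v : Fin N → Dg n =>
              ∀ i < k, dig n x A i (ext v) = dig n x A i b).card : ℝ) *
                ((2 : ℝ) ^ n) ^ (fr n x A k b) = ((2 : ℝ) ^ n) ^ N := by exact_mod_cast h
          rw [← h', mul_assoc, mul_inv_cancel₀ (by positivity), mul_one, ENNReal.ofReal_natCast]
  unfold rho
  calc ENNReal.ofReal (((2 : ℝ) ^ n) ^ N)⁻¹ * ∑ v : Fin N → Dg n,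
      (cube n x A β k (ext v)).indicator (fun _ => ENNReal.ofReal ((β ^ k) ^ n)⁻¹) z
      ≤ ENNReal.ofReal (((2 : ℝ) ^ n) ^ N)⁻¹ *
        (ENNReal.ofReal (((2 : ℝ) ^ n) ^ N * (((2 : ℝ) ^ n) ^ (fr n x A k b))⁻¹) *
        ENNReal.ofReal ((β ^ k) ^ n)⁻¹) := by gcongr
    _ = _ := by
        rw [← ENNReal.ofReal_mul (by positivity), ← ENNReal.ofReal_mul (by positivity)]
        congr 1
        have : ((2 : ℝ) ^ n) ^ N ≠ 0 := by positivity
        field_simp

/-- integrating against the density -/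
lemma lintegral_rho_mul (N k : ℕ) (f : Eu n → ℝ≥0∞) (hf : Measurable f) :
    ∫⁻ z, rho n x A β N k z * f z =
      ENNReal.ofReal (((2 : ℝ) ^ n) ^ N)⁻¹ * ∑ v : Fin N → Dg n,
        ∫⁻ z in cube n x A β k (ext v), ENNReal.ofReal ((β ^ k) ^ n)⁻¹ * f z := by
  have e : ∀ z, rho n x A β N k z * f z = ENNReal.ofReal (((2 : ℝ) ^ n) ^ N)⁻¹ *
      ∑ v : Fin N → Dg n, (cube n x A β k (ext v)).indicator
        (fun z => ENNReal.ofReal ((β ^ k) ^ n)⁻¹ * f z) z := by
    intro z
    unfold rho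
    rw [mul_assoc, sum_mul]
    congr 1
    apply sum_congr rfl
    intro v _
    by_cases hv : z ∈ cube n x A β k (ext v)
    · rw [Set.indicator_of_mem hv, Set.indicator_of_mem hv]
    · rw [Set.indicator_of_notMem hv, Set.indicator_of_notMem hv, zero_mul]
  simp_rw [e]
  have hm : ∀ v : Fin N → Dg n, Measurable ((cube n x A β k (ext v)).indicator
        (fun z => ENNReal.ofReal ((β ^ k) ^ n)⁻¹ * f z)) := fun v =>
    (hf.const_mul _).indicator (measurableSet_cube _ _)
  rw [lintegral_const_mul _ (Finset.measurable_fun_sum _ fun v _ => hm v),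
    lintegral_finsetSum _ fun v _ => hm v]
  congr 1
  apply sum_congr rfl
  intro v _
  rw [lintegral_indicator (measurableSet_cube _ _)]

/-- the `s+1`-st power integral of the density -/
lemma lintegral_rho_pow (hx : 1 ≤ x) (hA : 1 ≤ A) (h0 : 0 < β) (h1 : β < 1 / 2) {N k : ℕ}
    (hk : k ≤ N) {s : ℝ} (hs : 0 < s) :
    ∫⁻ z, rho n x A β N k z ^ (s + 1) ≤
      ENNReal.ofReal ((((2 : ℝ) ^ n) ^ N)⁻¹ * ∑ v : Fin N → Dg n,
        (((β ^ k) ^ n)⁻¹ * (((2 : ℝ) ^ n) ^ (fr n x A k (ext v)))⁻¹) ^ s) := by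
  have hfin : ∀ z, rho n x A β N k z ≠ ∞ := by
    intro z
    unfold rho
    apply ENNReal.mul_ne_top ENNReal.ofReal_ne_top
    rw [ENNReal.sum_ne_top]
    intro v _
    by_cases hv : z ∈ cube n x A β k (ext v)
    · rw [Set.indicator_of_mem hv]; exact ENNReal.ofReal_ne_top
    · rw [Set.indicator_of_notMem hv]; exact ENNReal.zero_ne_top
  have e : ∀ z, rho n x A β N k z ^ (s + 1) = rho n x A β N k z * rho n x A β N k z ^ s := by
    intro z
    rw [ENNReal.rpow_add_of_nonneg _ _ hs.le (by norm_num), ENNReal.rpow_one, mul_comm]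
  simp_rw [e]
  rw [lintegral_rho_mul N k _ ((measurable_rho N k).pow_const _)]
  rw [ENNReal.ofReal_mul (by positivity), ENNReal.ofReal_sum_of_nonneg (fun v _ => by positivity)]
  gcongr with v _
  calc ∫⁻ z in cube n x A β k (ext v), ENNReal.ofReal ((β ^ k) ^ n)⁻¹ * rho n x A β N k z ^ s
      ≤ ∫⁻ _z in cube n x A β k (ext v), ENNReal.ofReal ((β ^ k) ^ n)⁻¹ *
          ENNReal.ofReal (((β ^ k) ^ n)⁻¹ * (((2 : ℝ) ^ n) ^ (fr n x A k (ext v)))⁻¹) ^ s := by
        apply setLIntegral_mono' (measurableSet_cube _ _)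
        intro z hz
        gcongr
        exact rho_le hx hA h0 h1 hk (ext v) hz
    _ = ENNReal.ofReal ((((β ^ k) ^ n)⁻¹ * (((2 : ℝ) ^ n) ^ (fr n x A k (ext v)))⁻¹) ^ s) := by
        rw [setLIntegral_const, volume_cube h0, mul_right_comm,
          ← ENNReal.ofReal_mul (by positivity), inv_mul_cancel₀ (by positivity),
          ENNReal.ofReal_one, one_mul, ENNReal.ofReal_rpow_of_nonneg (by positivity) hs.le]

end

end Pool.Agent.H60.Besov
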