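import Pool.Agent.H60.Besov.Est

namespace Pool.Agent.H60.Besov

open Finset MeasureTheory Filter Topology
open scoped ENNReal

section

variable {n x A : ℕ} {β : ℝ}

/-- `L^p` modulus -/
noncomputable def om (p : ℝ) (u : Eu n → ℝ) (h : Eu n) : ℝ≥0∞ :=
  (∫⁻ z, ‖u (z + h) - u z‖ₑ ^ p) ^ (1 / p)

lemma measurable_incr {u : Eu n → ℝ} (hu : Continuous u) :
    Measurable fun w : Eu n × Eu n => ‖u (w.1 + w.2) - u w.1‖ₑ := by
  have : Continuous fun w : Eu n × Eu n => u (w.1 + w.2) - u w.1 := by fun_prop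
  exact this.measurable.enorm

lemma measurable_om (p : ℝ) {u : Eu n → ℝ} (hu : Continuous u) : Measurable (om p u) := by
  unfold om
  apply Measurable.pow_const
  have h := ((measurable_incr hu).pow_const p).comp measurable_swap
  exact Measurable.lintegral_prod_right' (f := fun w : Eu n × Eu n => ‖u (w.2 + w.1) - u w.2‖ₑ ^ p) h

lemma om_eq {p : ℝ} (hp : 0 < p) (u : Eu n → ℝ) (h : Eu n) :
    eLpNorm (fun z => u (z + h) - u z) (ENNReal.ofReal p) volume = om p u h := by
  rw [eLpNorm_eq_lintegral_rpow_enorm_toReal (by simpa using hp) ENNReal.ofReal_ne_top,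
    ENNReal.toReal_ofReal hp.le]
  rfl

lemma measurableSet_Bk (k : ℕ) : MeasurableSet (Bk n β k) :=
  Metric.isClosed_closedBall.measurableSet

/-- averaged difference of consecutive averages -/
lemma sum_av_diff_le (h0 : 0 < β) (h1 : β < 1 / 2) {u : Eu n → ℝ} (hu : Continuous u)
    (hc : HasCompactSupport u) {p p' : ℝ} (hpp : p.HolderConjugate p') (N k : ℕ) :
    ENNReal.ofReal (((2 : ℝ) ^ n) ^ N)⁻¹ * ∑ v : Fin N → Dg n,
      ‖av x A β u (k + 1) (ext v) - av x A β u k (ext v)‖ₑ ≤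
    (∫⁻ z, rho n x A β N (k + 1) z ^ p') ^ (1 / p') *
      (ENNReal.ofReal ((β ^ k) ^ n)⁻¹ * ∫⁻ h in Bk n β k, om p u h) := by
  set G : Eu n → ℝ≥0∞ := fun z =>
    ENNReal.ofReal ((β ^ k) ^ n)⁻¹ * ∫⁻ h in Bk n β k, ‖u (z + h) - u z‖ₑ with hG
  have hGm : Measurable G := by
    apply Measurable.const_mul
    exact Measurable.lintegral_prod_right' (ν := volume.restrict (Bk n β k)) (measurable_incr hu)
  have s1 : ENNReal.ofReal (((2 : ℝ) ^ n) ^ N)⁻¹ * ∑ v : Fin N → Dg n,
      ‖av x A β u (k + 1) (ext v) - av x A β u k (ext v)‖ₑ ≤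
      ∫⁻ z, rho n x A β N (k + 1) z * G z := by
    rw [lintegral_rho_mul N (k + 1) G hGm]
    gcongr with v _
    exact av_diff_le h0 h1 hu hc k (ext v)
  refine s1.trans ?_
  have s2 : ∫⁻ z, rho n x A β N (k + 1) z * G z =
      ENNReal.ofReal ((β ^ k) ^ n)⁻¹ * ∫⁻ h in Bk n β k,
        ∫⁻ z, rho n x A β N (k + 1) z * ‖u (z + h) - u z‖ₑ := by
    have e : ∀ z, rho n x A β N (k + 1) z * G z = ENNReal.ofReal ((β ^ k) ^ n)⁻¹ *
        ∫⁻ h in Bk n β k, rho n x A β N (k + 1) z * ‖u (z + h) - u z‖ₑ := by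
      intro z
      rw [hG]
      simp only
      rw [lintegral_const_mul _ (by
        have : Continuous fun h : Eu n => u (z + h) - u z := by fun_prop
        exact this.measurable.enorm)]
      ring
    simp_rw [e]
    have hjm : Measurable fun w : Eu n × Eu n =>
        rho n x A β N (k + 1) w.1 * ‖u (w.1 + w.2) - u w.1‖ₑ :=
      ((measurable_rho N (k + 1)).comp measurable_fst).mul (measurable_incr hu)
    rw [lintegral_const_mul _ (Measurable.lintegral_prod_right'
      (ν := volume.restrict (Bk n β k)) hjm)]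
    congr 1
    exact lintegral_lintegral_swap (f := fun z h =>
      rho n x A β N (k + 1) z * ‖u (z + h) - u z‖ₑ) hjm.aemeasurable
  rw [s2]
  calc ENNReal.ofReal ((β ^ k) ^ n)⁻¹ * ∫⁻ h in Bk n β k,
        ∫⁻ z, rho n x A β N (k + 1) z * ‖u (z + h) - u z‖ₑ
      ≤ ENNReal.ofReal ((β ^ k) ^ n)⁻¹ * ∫⁻ h in Bk n β k,
        (∫⁻ z, rho n x A β N (k + 1) z ^ p') ^ (1 / p') * om p u h := by
        gcongr with h
        have := ENNReal.lintegral_mul_le_Lp_mul_Lq (volume : Measure (Eu n)) hpp.symm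
          (measurable_rho (x := x) (A := A) (β := β) N (k + 1)).aemeasurable
          (g := fun z => ‖u (z + h) - u z‖ₑ) (by
            have : Continuous fun z : Eu n => u (z + h) - u z := by fun_prop
            exact this.measurable.enorm.aemeasurable)
        exact this
    _ = _ := by
        rw [lintegral_const_mul _ (measurable_om p hu)]
        ring

/-- bound for the power integral of the density in terms of heights -/
lemma rho_pow_bound (hx : 1 ≤ x) (hA : 1 ≤ A) (h0 : 0 < β) (h1 : β < 1 / 2) {d α p s : ℝ}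
    (hd : 0 < d) (hs : 0 < s) (hβ : β = (2 : ℝ) ^ (-((n : ℝ) * x / ((x + 1) * d))))
    (hdn : (n : ℝ) - d = α * p) {N k : ℕ} (hk : k ≤ N) (hn : 1 ≤ n) :
    ∫⁻ z, rho n x A β N k z ^ (s + 1) ≤
      ENNReal.ofReal ((β ^ k) ^ (-(α * p * s)) * ep n x A ((n : ℝ) / (x + 1) * s) (st n x A k).1) := by
  refine (lintegral_rho_pow hx hA h0 h1 hk hs).trans ?_
  apply ENNReal.ofReal_le_ofReal
  have hβk : 0 < β ^ k := pow_pos h0 k
  have e : ∀ v : Fin N → Dg n,
      (((β ^ k) ^ n)⁻¹ * (((2 : ℝ) ^ n) ^ (fr n x A k (ext v)))⁻¹) ^ s =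
      (β ^ k) ^ (-(α * p * s)) * (2 : ℝ) ^ ((n : ℝ) / (x + 1) * s * ht n x A k (ext v)) := by
    intro v
    have h3 := scale_eq (A := A) (x := x) (n := n) hd hβ k (ext v)
    have h4 : (((2 : ℝ) ^ n) ^ (fr n x A k (ext v)))⁻¹ =
        (β ^ k) ^ d * (2 : ℝ) ^ ((n : ℝ) / (x + 1) * ht n x A k (ext v)) := by
      rw [h3, mul_right_comm, ← Real.rpow_add (by norm_num)]
      simp
    have h5 : ((β ^ k) ^ n)⁻¹ = (β ^ k) ^ (-(n : ℝ)) := by
      rw [Real.rpow_neg hβk.le, Real.rpow_natCast]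
    rw [h4, h5, ← mul_assoc, ← Real.rpow_add hβk, show -(n : ℝ) + d = -(α * p) by linarith,
      Real.mul_rpow (by positivity) (by positivity), ← Real.rpow_mul hβk.le,
      ← Real.rpow_mul (by norm_num)]
    congr 2
    · ring
    · ring
  simp_rw [e]
  rw [← mul_sum, ← mul_assoc, mul_comm (((2 : ℝ) ^ n) ^ N)⁻¹, mul_assoc]
  apply mul_le_mul_of_nonneg_left _ (by positivity)
  have hnR : (1 : ℝ) ≤ n := by exact_mod_cast hn
  have hm := moment_bound (n := n) hx hA (κ := (n : ℝ) / (x + 1) * s) (by positivity) hk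
  calc (((2 : ℝ) ^ n) ^ N)⁻¹ * ∑ v : Fin N → Dg n,
        (2 : ℝ) ^ ((n : ℝ) / (x + 1) * s * ht n x A k (ext v))
      ≤ (((2 : ℝ) ^ n) ^ N)⁻¹ * (((2 : ℝ) ^ n) ^ N *
        ep n x A ((n : ℝ) / (x + 1) * s) (st n x A k).1) :=
        mul_le_mul_of_nonneg_left hm (by positivity)
    _ = _ := by rw [← mul_assoc, inv_mul_cancel₀ (by positivity), one_mul]

/-- Jensen -/
lemma lintegral_pow_le {μ : Measure (Eu n)} {f : Eu n → ℝ≥0∞} (hf : AEMeasurable f μ) {q : ℝ}
    (hq : 1 ≤ q) : (∫⁻ h, f h ∂μ) ^ q ≤ (∫⁻ h, f h ^ q ∂μ) * (μ Set.univ) ^ (q - 1) := by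
  rcases hq.eq_or_lt with rfl | hq
  · simp
  · have hpq : q.HolderConjugate (q / (q - 1)) := Real.HolderConjugate.conjExponent hq
    have hq1 : 0 < q - 1 := by linarith
    have h := ENNReal.lintegral_mul_le_Lp_mul_Lq μ hpq hf (g := fun _ => 1) aemeasurable_const
    simp only [Pi.mul_apply, mul_one, ENNReal.one_rpow, lintegral_const, one_mul] at h
    calc (∫⁻ h, f h ∂μ) ^ q ≤ ((∫⁻ h, f h ^ q ∂μ) ^ (1 / q) *
          (μ Set.univ) ^ (1 / (q / (q - 1)))) ^ q := ENNReal.rpow_le_rpow h (by linarith)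
      _ = _ := by
          rw [ENNReal.mul_rpow_of_nonneg _ _ (by linarith), ← ENNReal.rpow_mul,
            ← ENNReal.rpow_mul]
          congr 1
          · rw [one_div, inv_mul_cancel₀ (by linarith), ENNReal.rpow_one]
          · congr 1
            field_simp

/-- the geometric sum -/
lemma geom_bound {b : ℝ} (hb : 1 < b) (N : ℕ) :
    ∑ k ∈ range (N + 1), b ^ k ≤ b ^ N * (b / (b - 1)) := by
  have hb1 : 0 < b - 1 := by linarith
  rw [geom_sum_eq hb.ne', div_le_iff₀ hb1]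
  have : b ^ N * (b / (b - 1)) * (b - 1) = b ^ (N + 1) := by
    field_simp; ring
  rw [this]; linarith

open Classical in
lemma ball_sum_bound (h0 : 0 < β) (h1 : β < 1 / 2) {γ : ℝ} (hγ : 0 < γ) {h : Eu n}
    (hh : h ≠ 0) (N : ℕ) :
    ∑ k ∈ range N, (if h ∈ Bk n β k then (β ^ k) ^ (-γ) else 0) ≤
      Real.sqrt n ^ γ * (β ^ (-γ) / (β ^ (-γ) - 1)) * ‖h‖ ^ (-γ) := by
  have hb : 1 < β ^ (-γ) := by
    rw [Real.rpow_neg h0.le]
    exact (one_lt_inv₀ (by positivity)).2 (Real.rpow_lt_one h0.le (by linarith) hγ)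
  have hb1 : 0 < β ^ (-γ) - 1 := by linarith
  have hpow : ∀ k : ℕ, (β ^ k) ^ (-γ) = (β ^ (-γ)) ^ k := by
    intro k
    rw [← Real.rpow_natCast, ← Real.rpow_natCast, ← Real.rpow_mul h0.le, ← Real.rpow_mul h0.le]
    congr 1; ring
  have hhn : 0 < ‖h‖ := norm_pos_iff.2 hh
  induction N with
  | zero => simp only [range_zero, sum_empty]; positivity
  | succ N ih =>
    by_cases hB : h ∈ Bk n β N
    · have hle : ‖h‖ ≤ Real.sqrt n * β ^ N := by
        unfold Bk at hB; rwa [mem_closedBall_zero_iff] at hB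
      have hsn : 0 < Real.sqrt n := by
        by_contra hcon
        have : Real.sqrt n = 0 := le_antisymm (not_lt.1 hcon) (Real.sqrt_nonneg _)
        rw [this, zero_mul] at hle; linarith
      calc ∑ k ∈ range (N + 1), (if h ∈ Bk n β k then (β ^ k) ^ (-γ) else 0)
          ≤ ∑ k ∈ range (N + 1), (β ^ (-γ)) ^ k := by
            apply sum_le_sum
            intro k _
            rw [hpow]
            split_ifs
            · exact le_rfl
            · positivity
        _ ≤ (β ^ (-γ)) ^ N * (β ^ (-γ) / (β ^ (-γ) - 1)) := geom_bound hb N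
        _ ≤ (Real.sqrt n ^ γ * ‖h‖ ^ (-γ)) * (β ^ (-γ) / (β ^ (-γ) - 1)) := by
            apply mul_le_mul_of_nonneg_right _ (by positivity)
            rw [← hpow]
            have h3 : (Real.sqrt n * β ^ N) ^ (-γ) ≤ ‖h‖ ^ (-γ) :=
              Real.rpow_le_rpow_of_nonpos hhn hle (by linarith)
            rw [Real.mul_rpow hsn.le (by positivity)] at h3
            have h4 : Real.sqrt n ^ γ * Real.sqrt n ^ (-γ) = 1 := by
              rw [← Real.rpow_add hsn]; simp
            calc (β ^ N) ^ (-γ) = Real.sqrt n ^ γ * (Real.sqrt n ^ (-γ) * (β ^ N) ^ (-γ)) := by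
                  rw [← mul_assoc, h4, one_mul]
              _ ≤ _ := mul_le_mul_of_nonneg_left h3 (by positivity)
        _ = _ := by ring
    · rw [sum_range_succ, if_neg hB, add_zero]
      exact ih

end

end Pool.Agent.H60.Besov
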