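import Pool.Agent.H60.Besov.Est2

namespace Pool.Agent.H60.Besov

open Finset MeasureTheory Filter Topology
open scoped ENNReal

section

variable {n x A : ℕ} {β : ℝ}

/-- the seminorm integral -/
noncomputable def semi (α p q : ℝ) (u : Eu n → ℝ) : ℝ≥0∞ :=
  ∫⁻ h, (om p u h / ENNReal.ofReal (‖h‖ ^ α)) ^ q / ENNReal.ofReal (‖h‖ ^ n)

/-- the weighted scale contribution -/
noncomputable def bb (β α p : ℝ) (u : Eu n → ℝ) (k : ℕ) : ℝ≥0∞ :=
  ENNReal.ofReal ((β ^ k) ^ (-α) * ((β ^ k) ^ n)⁻¹) * ∫⁻ h in Bk n β k, om p u h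

lemma bb_pow_le (h0 : 0 < β) {α p q : ℝ} (hq : 1 ≤ q) {u : Eu n → ℝ} (hu : Continuous u)
    (k : ℕ) (hn : 1 ≤ n) :
    bb β α p u k ^ q ≤ (ENNReal.ofReal (Real.sqrt n ^ ((n : ℝ) * (q - 1))) *
      (volume (Metric.ball (0 : Eu n) 1)) ^ (q - 1)) *
      (ENNReal.ofReal ((β ^ k) ^ (-(α * q + n))) * ∫⁻ h in Bk n β k, om p u h ^ q) := by
  have hq0 : 0 ≤ q := by linarith
  have hq1 : 0 ≤ q - 1 := by linarith
  have hβk : 0 < β ^ k := pow_pos h0 k
  have hsn : 0 < Real.sqrt n := Real.sqrt_pos.2 (by exact_mod_cast hn)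
  have hvol : (volume.restrict (Bk n β k)) Set.univ =
      ENNReal.ofReal ((Real.sqrt n * β ^ k) ^ n) * volume (Metric.ball (0 : Eu n) 1) := by
    rw [Measure.restrict_apply_univ]
    unfold Bk
    rw [Measure.addHaar_closedBall _ _ (by positivity)]
    simp
  have hJ := lintegral_pow_le (μ := volume.restrict (Bk n β k)) (f := om p u)
    (measurable_om p hu).aemeasurable hq
  rw [hvol, ENNReal.mul_rpow_of_nonneg _ _ hq1, ENNReal.ofReal_rpow_of_nonneg (by positivity) hq1]
    at hJ
  unfold bb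
  rw [ENNReal.mul_rpow_of_nonneg _ _ hq0, ENNReal.ofReal_rpow_of_nonneg (by positivity) hq0]
  calc ENNReal.ofReal (((β ^ k) ^ (-α) * ((β ^ k) ^ n)⁻¹) ^ q) *
        (∫⁻ h in Bk n β k, om p u h) ^ q
      ≤ ENNReal.ofReal (((β ^ k) ^ (-α) * ((β ^ k) ^ n)⁻¹) ^ q) *
        ((∫⁻ h in Bk n β k, om p u h ^ q) *
          (ENNReal.ofReal (((Real.sqrt n * β ^ k) ^ n) ^ (q - 1)) *
            (volume (Metric.ball (0 : Eu n) 1)) ^ (q - 1))) := by gcongr
    _ = (ENNReal.ofReal (((β ^ k) ^ (-α) * ((β ^ k) ^ n)⁻¹) ^ q) *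
          ENNReal.ofReal (((Real.sqrt n * β ^ k) ^ n) ^ (q - 1))) *
          ((volume (Metric.ball (0 : Eu n) 1)) ^ (q - 1) * ∫⁻ h in Bk n β k, om p u h ^ q) := by
        ring
    _ = _ := by
        rw [← ENNReal.ofReal_mul (by positivity)]
        have e : ((β ^ k) ^ (-α) * ((β ^ k) ^ n)⁻¹) ^ q *
            ((Real.sqrt n * β ^ k) ^ n) ^ (q - 1) =
            Real.sqrt n ^ ((n : ℝ) * (q - 1)) * (β ^ k) ^ (-(α * q + n)) := by
          have e1 : ((β ^ k) ^ n)⁻¹ = (β ^ k) ^ (-(n : ℝ)) := by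
            rw [Real.rpow_neg hβk.le, Real.rpow_natCast]
          have e2 : (Real.sqrt n * β ^ k) ^ n = (Real.sqrt n * β ^ k) ^ (n : ℝ) := by
            rw [Real.rpow_natCast]
          rw [e1, e2, ← Real.rpow_add hβk, ← Real.rpow_mul hβk.le, ← Real.rpow_mul (by positivity),
            Real.mul_rpow hsn.le hβk.le]
          rw [mul_left_comm, ← Real.rpow_add hβk]
          congr 2
          ring
        rw [e, ENNReal.ofReal_mul (by positivity)]
        ring

lemma sum_bb_pow_le (h0 : 0 < β) (h1 : β < 1 / 2) {α p q : ℝ} (hα : 0 < α) (hq : 1 ≤ q)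
    {u : Eu n → ℝ} (hu : Continuous u) (hn : 1 ≤ n) (N : ℕ) :
    ∑ k ∈ range N, bb β α p u k ^ q ≤
      (ENNReal.ofReal (Real.sqrt n ^ ((n : ℝ) * (q - 1))) *
      (volume (Metric.ball (0 : Eu n) 1)) ^ (q - 1)) *
      (ENNReal.ofReal (Real.sqrt n ^ (α * q + n) *
        (β ^ (-(α * q + n)) / (β ^ (-(α * q + n)) - 1))) * semi α p q u) := by
  classical
  have hq0 : 0 ≤ q := by linarith
  set γ : ℝ := α * q + n with hγ
  have hγ0 : 0 < γ := by
    have : (0 : ℝ) < n := by exact_mod_cast hn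
    have : 0 < α * q := by positivity
    linarith
  calc ∑ k ∈ range N, bb β α p u k ^ q
      ≤ ∑ k ∈ range N, (ENNReal.ofReal (Real.sqrt n ^ ((n : ℝ) * (q - 1))) *
        (volume (Metric.ball (0 : Eu n) 1)) ^ (q - 1)) *
        (ENNReal.ofReal ((β ^ k) ^ (-γ)) * ∫⁻ h in Bk n β k, om p u h ^ q) :=
        sum_le_sum fun k _ => bb_pow_le h0 hq hu k hn
    _ = (ENNReal.ofReal (Real.sqrt n ^ ((n : ℝ) * (q - 1))) *
        (volume (Metric.ball (0 : Eu n) 1)) ^ (q - 1)) *
        ∑ k ∈ range N, (ENNReal.ofReal ((β ^ k) ^ (-γ)) * ∫⁻ h in Bk n β k, om p u h ^ q) := by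
        rw [mul_sum]
    _ ≤ _ := by
        gcongr
        have hm : Measurable fun h => om p u h ^ q := (measurable_om p hu).pow_const q
        have e1 : ∀ k, ENNReal.ofReal ((β ^ k) ^ (-γ)) * ∫⁻ h in Bk n β k, om p u h ^ q =
            ∫⁻ h, (if h ∈ Bk n β k then ENNReal.ofReal ((β ^ k) ^ (-γ)) else 0) *
              om p u h ^ q := by
          intro k
          rw [← lintegral_const_mul _ hm, ← lintegral_indicator (measurableSet_Bk k)]
          apply lintegral_congr
          intro h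
          by_cases hB : h ∈ Bk n β k
          · rw [Set.indicator_of_mem hB, if_pos hB]
          · rw [Set.indicator_of_notMem hB, if_neg hB, zero_mul]
        simp_rw [e1]
        rw [← lintegral_finsetSum]
        · unfold semi
          rw [← lintegral_const_mul _ (by
            apply Measurable.div
            · apply Measurable.pow_const
              exact (measurable_om p hu).div (by fun_prop)
            · fun_prop)]
          have hne : ∀ᵐ h : Eu n, h ≠ 0 := by
            have hnt : Nontrivial (Eu n) := by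
              have : Nonempty (Fin n) := ⟨⟨0, hn⟩⟩
              infer_instance
            rw [ae_iff]
            simp
          apply lintegral_mono_ae
          filter_upwards [hne] with h hh
          have hhn : 0 < ‖h‖ := norm_pos_iff.2 hh
          rw [← sum_mul]
          have e2 : ∑ k ∈ range N, (if h ∈ Bk n β k then ENNReal.ofReal ((β ^ k) ^ (-γ)) else 0) =
              ENNReal.ofReal (∑ k ∈ range N, (if h ∈ Bk n β k then (β ^ k) ^ (-γ) else 0)) := by
            rw [ENNReal.ofReal_sum_of_nonneg]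
            · apply sum_congr rfl
              intro k _
              split_ifs
              · rfl
              · simp
            · intro k _
              split_ifs <;> positivity
          rw [e2]
          have hb := ball_sum_bound h0 h1 hγ0 hh N
          calc ENNReal.ofReal (∑ k ∈ range N, (if h ∈ Bk n β k then (β ^ k) ^ (-γ) else 0)) *
                om p u h ^ q
              ≤ ENNReal.ofReal (Real.sqrt n ^ γ * (β ^ (-γ) / (β ^ (-γ) - 1)) * ‖h‖ ^ (-γ)) *
                om p u h ^ q := by gcongr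
            _ = ENNReal.ofReal (Real.sqrt n ^ γ * (β ^ (-γ) / (β ^ (-γ) - 1))) *
                (ENNReal.ofReal (‖h‖ ^ (-γ)) * om p u h ^ q) := by
                rw [ENNReal.ofReal_mul' (by positivity)]; ring
            _ = _ := by
                congr 1
                rw [ENNReal.div_rpow_of_nonneg _ _ hq0, ENNReal.ofReal_rpow_of_nonneg
                  (by positivity) hq0, div_eq_mul_inv, div_eq_mul_inv, mul_assoc,
                  ← ENNReal.ofReal_inv_of_pos (by positivity),
                  ← ENNReal.ofReal_inv_of_pos (by positivity),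
                  ← ENNReal.ofReal_mul (by positivity), mul_comm]
                congr 2
                rw [← Real.rpow_natCast, ← Real.rpow_mul hhn.le, ← Real.rpow_neg hhn.le,
                  ← Real.rpow_neg hhn.le, ← Real.rpow_add hhn]
                congr 1
                rw [hγ]; ring
        · intro k _
          exact (Measurable.ite (measurableSet_Bk k) measurable_const measurable_const).mul hm

/-- monotonicity of `ℓ^q` norms -/
lemma lq_mono (b : ℕ → ℝ≥0∞) (N : ℕ) {q q₁ : ℝ} (hq : 0 < q) (hq₁ : q ≤ q₁) :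
    (∑ k ∈ range N, b k ^ q₁) ^ (1 / q₁) ≤ (∑ k ∈ range N, b k ^ q) ^ (1 / q) := by
  have hq₁0 : 0 < q₁ := by linarith
  set S := ∑ k ∈ range N, b k ^ q with hS
  have hb : ∀ k ∈ range N, b k ≤ S ^ (1 / q) := by
    intro k hk
    have : b k ^ q ≤ S := single_le_sum (f := fun k => b k ^ q) (fun _ _ => bot_le) hk
    calc b k = (b k ^ q) ^ (1 / q) := by
          rw [← ENNReal.rpow_mul, mul_one_div_cancel hq.ne', ENNReal.rpow_one]
      _ ≤ S ^ (1 / q) := ENNReal.rpow_le_rpow this (by positivity)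
  have h1 : ∑ k ∈ range N, b k ^ q₁ ≤ S ^ (q₁ / q) := by
    calc ∑ k ∈ range N, b k ^ q₁ ≤ ∑ k ∈ range N, b k ^ q * (S ^ (1 / q)) ^ (q₁ - q) := by
          apply sum_le_sum
          intro k hk
          have e : b k ^ q₁ = b k ^ q * b k ^ (q₁ - q) := by
            rw [← ENNReal.rpow_add_of_nonneg _ _ hq.le (by linarith)]
            congr 1; ring
          rw [e]
          gcongr
          · exact hb k hk
      _ = S * S ^ ((q₁ - q) / q) := by
          rw [← sum_mul, ← ENNReal.rpow_mul]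
          congr 2; ring
      _ = S ^ (q₁ / q) := by
          have h0 : 0 ≤ (q₁ - q) / q := div_nonneg (by linarith) hq.le
          calc S * S ^ ((q₁ - q) / q) = S ^ (1 : ℝ) * S ^ ((q₁ - q) / q) := by
                rw [ENNReal.rpow_one]
            _ = S ^ (1 + (q₁ - q) / q) := by
                rw [ENNReal.rpow_add_of_nonneg _ _ zero_le_one h0]
            _ = S ^ (q₁ / q) := by
                congr 1; field_simp; ring
  calc (∑ k ∈ range N, b k ^ q₁) ^ (1 / q₁) ≤ (S ^ (q₁ / q)) ^ (1 / q₁) :=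
        ENNReal.rpow_le_rpow h1 (by positivity)
    _ = S ^ (1 / q) := by
        rw [← ENNReal.rpow_mul]
        congr 1; field_simp

/-- averages over small cubes are close to the values on the Cantor set -/
lemma exists_av_ge (h0 : 0 < β) (h1 : β < 1 / 2) {u : Eu n → ℝ} (hu : Continuous u)
    (hc : HasCompactSupport u) (hK : ∀ y ∈ Set.range (pt n x A β), 1 ≤ u y) {ε : ℝ} (hε : 0 < ε) :
    ∃ N₀ : ℕ, ∀ N ≥ N₀, ∀ b, 1 - ε ≤ av x A β u N b := by
  have huc : UniformContinuous u := hc.uniformContinuous_of_continuous hu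
  rw [Metric.uniformContinuous_iff] at huc
  obtain ⟨δ, hδ, hδ'⟩ := huc ε hε
  have hlim : Tendsto (fun N : ℕ => Real.sqrt n * β ^ N) atTop (𝓝 0) := by
    rw [show (0 : ℝ) = Real.sqrt n * 0 by ring]
    apply Tendsto.const_mul
    exact tendsto_pow_atTop_nhds_zero_of_lt_one h0.le (by linarith)
  obtain ⟨N₀, hN₀⟩ := eventually_atTop.1 (hlim.eventually (gt_mem_nhds hδ))
  refine ⟨N₀, fun N hN b => ?_⟩
  have hV : 0 < (β ^ N) ^ n := by positivity
  have hint : Integrable u := hu.integrable_of_hasCompactSupport hc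
  have hvol : volume (cube n x A β N b) ≠ ∞ := by
    rw [volume_cube h0]; exact ENNReal.ofReal_ne_top
  have hlow : ∀ y ∈ cube n x A β N b, 1 - ε ≤ u y := by
    intro y hy
    have hd : dist y (pt n x A β b) < δ := by
      rw [dist_eq_norm]
      exact lt_of_le_of_lt (dist_of_mem_ccube (pow_pos h0 N).le (cube_subset_ccube N b hy)
        (pt_mem_ccube h0 h1 N b)) (hN₀ N hN)
    have h2 := hδ' hd
    rw [Real.dist_eq] at h2
    have h3 := hK _ ⟨b, rfl⟩
    have := (abs_lt.1 h2).1
    linarith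
  have hi : (1 - ε) * (β ^ N) ^ n ≤ ∫ y in cube n x A β N b, u y := by
    have h4 : ∫ _y in cube n x A β N b, (1 - ε) = (1 - ε) * (β ^ N) ^ n := by
      rw [setIntegral_const, measureReal_def, volume_cube h0, ENNReal.toReal_ofReal hV.le,
        smul_eq_mul, mul_comm]
    rw [← h4]
    exact setIntegral_mono_on (integrableOn_const (C := 1 - ε) hvol) hint.integrableOn
      (measurableSet_cube _ _) hlow
  unfold av
  calc 1 - ε = ((β ^ N) ^ n)⁻¹ * ((1 - ε) * (β ^ N) ^ n) := by field_simp
    _ ≤ _ := mul_le_mul_of_nonneg_left hi (by positivity)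

lemma av_zero_le (h0 : 0 < β) {u : Eu n → ℝ} (hu : Continuous u) {p : ℝ} (hp : 1 < p)
    (b : ℕ → Dg n) : ‖av x A β u 0 b‖ₑ ≤ eLpNorm u (ENNReal.ofReal p) volume := by
  have hvol : volume (cube n x A β 0 b) = 1 := by rw [volume_cube h0]; simp
  unfold av
  simp only [pow_zero, one_pow, inv_one, one_mul]
  refine (enorm_integral_le_lintegral_enorm _).trans ?_
  have h := eLpNorm_le_eLpNorm_mul_rpow_measure_univ (μ := volume.restrict (cube n x A β 0 b))
    (p := 1) (q := ENNReal.ofReal p) (f := u)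
    (by rw [← ENNReal.ofReal_one]; exact ENNReal.ofReal_le_ofReal hp.le)
    hu.aestronglyMeasurable
  rw [Measure.restrict_apply_univ, hvol, ENNReal.one_rpow, mul_one,
    eLpNorm_one_eq_lintegral_enorm] at h
  exact h.trans (eLpNorm_mono_measure _ Measure.restrict_le_self)

/-- The capacity estimate on the Cantor set. -/
theorem key_bound (hn : 1 ≤ n) (hx : 1 ≤ x) (hA : 1 ≤ A) (h0 : 0 < β) (h1 : β < 1 / 2)
    {α p q q₁ : ℝ} (hα : 0 < α) (hq : 1 ≤ q) (hqq : q ≤ q₁) (hq1 : 1 < q₁) (hp : 1 < p)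
    (hd : 0 < (n : ℝ) - α * p)
    (hβ : β = (2 : ℝ) ^ (-((n : ℝ) * x / ((x + 1) * ((n : ℝ) - α * p)))))
    {C : ℝ} (hC : ∀ N : ℕ, ∑ k ∈ range N,
      (ep n x A ((n : ℝ) / (x + 1) * (1 / (p - 1))) (st n x A k).1) ^
        ((q₁ / (q₁ - 1)) / (p / (p - 1))) ≤ C) :
    ∃ CK : ℝ≥0∞, CK ≠ ∞ ∧ ∀ u : Eu n → ℝ, Continuous u → HasCompactSupport u →
      (∀ y ∈ Set.range (pt n x A β), 1 ≤ u y) →
      1 ≤ CK * (eLpNorm u (ENNReal.ofReal p) volume + (semi α p q u) ^ (1 / q)) := by
  set s : ℝ := 1 / (p - 1) with hs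
  set p' : ℝ := p / (p - 1) with hp'
  set q' : ℝ := q₁ / (q₁ - 1) with hq'
  have hp1 : 0 < p - 1 := by linarith
  have hq11 : 0 < q₁ - 1 := by linarith
  have hs0 : 0 < s := by positivity
  have hsp : s + 1 = p' := by rw [hs, hp']; field_simp; ring
  have hps : p * s = p' := by rw [hs, hp']; ring
  have hp'0 : 0 < p' := by rw [← hsp]; linarith
  have hq'0 : 0 < q' := by rw [hq']; exact div_pos (by linarith) hq11
  have hpp : p.HolderConjugate p' := Real.HolderConjugate.conjExponent hp
  have hqq' : q₁.HolderConjugate q' := Real.HolderConjugate.conjExponent hq1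
  set κ : ℝ := (n : ℝ) / (x + 1) * s with hκ
  set D : ℝ≥0∞ := (ENNReal.ofReal (Real.sqrt n ^ ((n : ℝ) * (q - 1))) *
      (volume (Metric.ball (0 : Eu n) 1)) ^ (q - 1)) *
      ENNReal.ofReal (Real.sqrt n ^ (α * q + n) *
        (β ^ (-(α * q + n)) / (β ^ (-(α * q + n)) - 1))) with hD
  have hDtop : D ≠ ∞ := by
    rw [hD]
    apply ENNReal.mul_ne_top _ ENNReal.ofReal_ne_top
    apply ENNReal.mul_ne_top ENNReal.ofReal_ne_top
    apply ENNReal.rpow_ne_top_of_nonneg (by linarith)
    exact measure_ball_lt_top.ne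
  set P : ℝ≥0∞ := (ENNReal.ofReal ((β ^ (-α)) ^ q' * C)) ^ (1 / q') * D ^ (1 / q) with hP
  have hPtop : P ≠ ∞ := by
    rw [hP]
    apply ENNReal.mul_ne_top
    · exact ENNReal.rpow_ne_top_of_nonneg (by positivity) ENNReal.ofReal_ne_top
    · exact ENNReal.rpow_ne_top_of_nonneg (by positivity) hDtop
  refine ⟨1 + P, ENNReal.add_ne_top.2 ⟨ENNReal.one_ne_top, hPtop⟩, fun u hu hc hK => ?_⟩
  set W : ℝ≥0∞ := (1 + P) * (eLpNorm u (ENNReal.ofReal p) volume + (semi α p q u) ^ (1 / q))
    with hW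
  -- the estimate for averages
  have hmain : ∀ N : ℕ, ENNReal.ofReal (((2 : ℝ) ^ n) ^ N)⁻¹ * ∑ v : Fin N → Dg n,
      ‖av x A β u N (ext v)‖ₑ ≤ W := by
    intro N
    have hcardN : ((univ : Finset (Fin N → Dg n)).card : ℝ) = ((2 : ℝ) ^ n) ^ N := by
      rw [card_univ, Fintype.card_pi]; simp
    have hconst : ∀ c : ℝ≥0∞, ENNReal.ofReal (((2 : ℝ) ^ n) ^ N)⁻¹ *
        ∑ _v : Fin N → Dg n, c = c := by
      intro c
      rw [sum_const, nsmul_eq_mul, ← mul_assoc, ← ENNReal.ofReal_natCast, hcardN,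
        ← ENNReal.ofReal_mul (by positivity), inv_mul_cancel₀ (by positivity),
        ENNReal.ofReal_one, one_mul]
    have hstep : ∀ j ≤ N, ENNReal.ofReal (((2 : ℝ) ^ n) ^ N)⁻¹ * ∑ v : Fin N → Dg n,
        ‖av x A β u j (ext v)‖ₑ ≤ eLpNorm u (ENNReal.ofReal p) volume +
          ∑ k ∈ range j, ENNReal.ofReal (((2 : ℝ) ^ n) ^ N)⁻¹ * ∑ v : Fin N → Dg n,
            ‖av x A β u (k + 1) (ext v) - av x A β u k (ext v)‖ₑ := by
      intro j
      induction j with
      | zero =>
        intro _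
        rw [range_zero, sum_empty, add_zero]
        calc ENNReal.ofReal (((2 : ℝ) ^ n) ^ N)⁻¹ * ∑ v : Fin N → Dg n,
              ‖av x A β u 0 (ext v)‖ₑ
            ≤ ENNReal.ofReal (((2 : ℝ) ^ n) ^ N)⁻¹ * ∑ _v : Fin N → Dg n,
              eLpNorm u (ENNReal.ofReal p) volume := by
              gcongr with v _
              exact av_zero_le h0 hu hp (ext v)
          _ = _ := hconst _
      | succ j ih =>
        intro hj
        rw [sum_range_succ, ← add_assoc]
        refine le_trans ?_ (add_le_add_left (ih (by omega)) _)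
        rw [← mul_add, ← sum_add_distrib]
        gcongr with v _
        have : av x A β u (j + 1) (ext v) = av x A β u j (ext v) +
            (av x A β u (j + 1) (ext v) - av x A β u j (ext v)) := by ring
        calc ‖av x A β u (j + 1) (ext v)‖ₑ = ‖av x A β u j (ext v) +
            (av x A β u (j + 1) (ext v) - av x A β u j (ext v))‖ₑ := by rw [← this]
          _ ≤ _ := enorm_add_le _ _
    refine (hstep N le_rfl).trans ?_
    have hterm : ∀ k ∈ range N, ENNReal.ofReal (((2 : ℝ) ^ n) ^ N)⁻¹ * ∑ v : Fin N → Dg n,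
        ‖av x A β u (k + 1) (ext v) - av x A β u k (ext v)‖ₑ ≤
        ENNReal.ofReal (β ^ (-α) * (ep n x A κ (st n x A (k + 1)).1) ^ (1 / p')) *
          bb β α p u k := by
      intro k hk
      rw [mem_range] at hk
      have hβk : 0 < β ^ k := pow_pos h0 k
      have hβk1 : 0 < β ^ (k + 1) := pow_pos h0 _
      refine (sum_av_diff_le h0 h1 hu hc hpp N k).trans ?_
      have hr := rho_pow_bound (n := n) (x := x) (A := A) (d := (n : ℝ) - α * p) (α := α)
        (p := p) (s := s) hx hA h0 h1 hd hs0 hβ (by ring) (show k + 1 ≤ N by omega) hn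
      rw [hsp] at hr
      have hep := ep_pos (n := n) (x := x) (A := A) κ (st n x A (k + 1)).1
      have hr2 : (∫⁻ z, rho n x A β N (k + 1) z ^ p') ^ (1 / p') ≤
          ENNReal.ofReal ((β ^ (k + 1)) ^ (-α) *
            (ep n x A κ (st n x A (k + 1)).1) ^ (1 / p')) := by
        refine (ENNReal.rpow_le_rpow hr (by positivity)).trans ?_
        rw [ENNReal.ofReal_rpow_of_nonneg (by positivity) (by positivity),
          Real.mul_rpow (by positivity) hep.le, ← Real.rpow_mul hβk1.le]
        apply le_of_eq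
        congr 3
        rw [mul_assoc, hps]
        field_simp
      calc (∫⁻ z, rho n x A β N (k + 1) z ^ p') ^ (1 / p') *
            (ENNReal.ofReal ((β ^ k) ^ n)⁻¹ * ∫⁻ h in Bk n β k, om p u h)
          ≤ ENNReal.ofReal ((β ^ (k + 1)) ^ (-α) *
            (ep n x A κ (st n x A (k + 1)).1) ^ (1 / p')) *
            (ENNReal.ofReal ((β ^ k) ^ n)⁻¹ * ∫⁻ h in Bk n β k, om p u h) := by gcongr
        _ = _ := by
            unfold bb
            rw [← mul_assoc, ← mul_assoc, ← ENNReal.ofReal_mul (by positivity),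
              ← ENNReal.ofReal_mul (by positivity)]
            congr 2
            rw [pow_succ, Real.mul_rpow hβk.le h0.le]
            ring
    have hsum : ∑ k ∈ range N, ENNReal.ofReal (((2 : ℝ) ^ n) ^ N)⁻¹ * ∑ v : Fin N → Dg n,
        ‖av x A β u (k + 1) (ext v) - av x A β u k (ext v)‖ₑ ≤
        P * (semi α p q u) ^ (1 / q) := by
      refine (sum_le_sum hterm).trans ?_
      refine (ENNReal.inner_le_Lp_mul_Lq (range N) _ _ hqq'.symm).trans ?_
      rw [hP, mul_assoc]
      gcongr ?_ * ?_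
      · apply ENNReal.rpow_le_rpow _ (by positivity)
        have e : ∀ k : ℕ, ENNReal.ofReal (β ^ (-α) *
            (ep n x A κ (st n x A (k + 1)).1) ^ (1 / p')) ^ q' =
            ENNReal.ofReal ((β ^ (-α)) ^ q' *
              (ep n x A κ (st n x A (k + 1)).1) ^ (q' / p')) := by
          intro k
          have hep := ep_pos (n := n) (x := x) (A := A) κ (st n x A (k + 1)).1
          rw [ENNReal.ofReal_rpow_of_nonneg (by positivity) hq'0.le,
            Real.mul_rpow (by positivity) (by positivity), ← Real.rpow_mul hep.le]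
          congr 3
          ring
        simp_rw [e]
        rw [← ENNReal.ofReal_sum_of_nonneg]
        · apply ENNReal.ofReal_le_ofReal
          rw [← mul_sum]
          apply mul_le_mul_of_nonneg_left _ (by positivity)
          have h2 := hC (N + 1)
          rw [sum_range_succ'] at h2
          have h3 : 0 ≤ (ep n x A κ (st n x A 0).1) ^ (q' / p') :=
            Real.rpow_nonneg (ep_pos _ _).le _
          linarith
        · intro k _
          have hep := ep_pos (n := n) (x := x) (A := A) κ (st n x A (k + 1)).1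
          positivity
      · refine (lq_mono _ N (by linarith) hqq).trans ?_
        rw [← ENNReal.mul_rpow_of_nonneg _ _ (by positivity)]
        apply ENNReal.rpow_le_rpow _ (by positivity)
        refine (sum_bb_pow_le h0 h1 hα hq hu hn N).trans ?_
        rw [hD, mul_assoc, mul_assoc, mul_assoc]
    calc eLpNorm u (ENNReal.ofReal p) volume +
          ∑ k ∈ range N, ENNReal.ofReal (((2 : ℝ) ^ n) ^ N)⁻¹ * ∑ v : Fin N → Dg n,
            ‖av x A β u (k + 1) (ext v) - av x A β u k (ext v)‖ₑ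
        ≤ eLpNorm u (ENNReal.ofReal p) volume + P * (semi α p q u) ^ (1 / q) := by gcongr
      _ ≤ (eLpNorm u (ENNReal.ofReal p) volume + (semi α p q u) ^ (1 / q)) +
          P * (eLpNorm u (ENNReal.ofReal p) volume + (semi α p q u) ^ (1 / q)) := by
          gcongr
          · exact le_self_add
          · exact le_add_self
      _ = W := by rw [hW]; ring
  -- lower bound for averages
  have hlow : ∀ ε : ℝ, 0 < ε → ENNReal.ofReal (1 - ε) ≤ W := by
    intro ε hε
    obtain ⟨N₀, hN₀⟩ := exists_av_ge (x := x) (A := A) h0 h1 hu hc hK hε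
    refine le_trans ?_ (hmain N₀)
    have hcardN : ((univ : Finset (Fin N₀ → Dg n)).card : ℝ) = ((2 : ℝ) ^ n) ^ N₀ := by
      rw [card_univ, Fintype.card_pi]; simp
    have hconst : ∀ c : ℝ≥0∞, ENNReal.ofReal (((2 : ℝ) ^ n) ^ N₀)⁻¹ *
        ∑ _v : Fin N₀ → Dg n, c = c := by
      intro c
      rw [sum_const, nsmul_eq_mul, ← mul_assoc, ← ENNReal.ofReal_natCast, hcardN,
        ← ENNReal.ofReal_mul (by positivity), inv_mul_cancel₀ (by positivity),
        ENNReal.ofReal_one, one_mul]
    rw [← hconst (ENNReal.ofReal (1 - ε))]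
    gcongr with v _
    refine (ENNReal.ofReal_le_ofReal (hN₀ N₀ le_rfl (ext v))).trans ?_
    rw [Real.enorm_eq_ofReal_abs]
    exact ENNReal.ofReal_le_ofReal (le_abs_self _)
  by_contra hcon
  rw [not_le] at hcon
  have hWtop : W ≠ ∞ := (hcon.trans ENNReal.one_lt_top).ne
  have hW1 : W.toReal < 1 := by
    rw [← ENNReal.toReal_one]
    exact (ENNReal.toReal_lt_toReal hWtop ENNReal.one_ne_top).2 hcon
  have h5 := hlow ((1 - W.toReal) / 2) (by linarith)
  rw [ENNReal.ofReal_le_iff_le_toReal hWtop] at h5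
  linarith

end

end Pool.Agent.H60.Besov
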