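import Pool.Agent.H60.Besov.Count

namespace Pool.Agent.H60.Besov

open Finset MeasureTheory

/-- Euclidean space -/
abbrev Eu (n : ℕ) := EuclideanSpace ℝ (Fin n)

section

variable (n x A : ℕ) (β : ℝ)

/-- the real value of a digit coordinate -/
noncomputable def dr (i : ℕ) (b : ℕ → Dg n) (c : Fin n) : ℝ := ((dig n x A i b c : ℕ) : ℝ)

/-- corner of the cube of generation `k` -/
noncomputable def cor (k : ℕ) (b : ℕ → Dg n) (c : Fin n) : ℝ :=
  ∑ i ∈ range k, (1 - β) * β ^ i * dr n x A i b c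

/-- cube of generation `k` -/
def cube (k : ℕ) (b : ℕ → Dg n) : Set (Eu n) :=
  {y | ∀ c, cor n x A β k b c ≤ y c ∧ y c < cor n x A β k b c + β ^ k}

/-- the point of the Cantor set -/
noncomputable def pt (b : ℕ → Dg n) : Eu n :=
  WithLp.toLp 2 fun c => ∑' i : ℕ, (1 - β) * β ^ i * dr n x A i b c

variable {n x A β}

lemma dr_nonneg (i : ℕ) (b : ℕ → Dg n) (c : Fin n) : 0 ≤ dr n x A i b c := by
  unfold dr; positivity

lemma dr_le_one (i : ℕ) (b : ℕ → Dg n) (c : Fin n) : dr n x A i b c ≤ 1 := by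
  unfold dr
  have := (dig n x A i b c).2
  exact_mod_cast (by omega : (dig n x A i b c : ℕ) ≤ 1)

lemma cor_succ (k : ℕ) (b : ℕ → Dg n) (c : Fin n) :
    cor n x A β (k + 1) b c = cor n x A β k b c + (1 - β) * β ^ k * dr n x A k b c := by
  unfold cor; rw [sum_range_succ]

lemma cor_zero (b : ℕ → Dg n) (c : Fin n) : cor n x A β 0 b c = 0 := by
  unfold cor; simp

lemma cor_congr {k : ℕ} {b b' : ℕ → Dg n} (h : ∀ i < k, dig n x A i b = dig n x A i b')
    (c : Fin n) : cor n x A β k b c = cor n x A β k b' c := by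
  unfold cor
  apply sum_congr rfl
  intro i hi
  rw [mem_range] at hi
  unfold dr; rw [h i hi]

lemma cube_congr {k : ℕ} {b b' : ℕ → Dg n} (h : ∀ i < k, dig n x A i b = dig n x A i b') :
    cube n x A β k b = cube n x A β k b' := by
  unfold cube
  simp_rw [cor_congr h]

lemma cube_succ_subset (h0 : 0 < β) (h1 : β < 1 / 2) (k : ℕ) (b : ℕ → Dg n) :
    cube n x A β (k + 1) b ⊆ cube n x A β k b := by
  intro y hy c
  have h := hy c
  rw [cor_succ] at h
  have d0 := dr_nonneg (x := x) (A := A) k b c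
  have d1 := dr_le_one (x := x) (A := A) k b c
  have hk : 0 < β ^ k := pow_pos h0 k
  have e : (1 - β) * β ^ k * dr n x A k b c + β ^ (k + 1) ≤ β ^ k := by
    have h3 : (1 - β) * β ^ k * dr n x A k b c ≤ (1 - β) * β ^ k := by
      have : 0 ≤ (1 - β) * β ^ k := by
        apply mul_nonneg _ hk.le; linarith
      nlinarith
    rw [pow_succ]; nlinarith
  have e2 : 0 ≤ (1 - β) * β ^ k * dr n x A k b c := by
    apply mul_nonneg (mul_nonneg _ hk.le) d0; linarith
  constructor
  · linarith [h.1]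
  · linarith [h.2]

lemma digits_of_mem_cube (h0 : 0 < β) (h1 : β < 1 / 2) (k : ℕ) {b b' : ℕ → Dg n} {y : Eu n}
    (hy : y ∈ cube n x A β k b) (hy' : y ∈ cube n x A β k b') :
    ∀ i < k, dig n x A i b = dig n x A i b' := by
  induction k with
  | zero => intro i hi; omega
  | succ k ih =>
    have hprev := ih (cube_succ_subset h0 h1 k b hy) (cube_succ_subset h0 h1 k b' hy')
    intro i hi
    rcases Nat.lt_succ_iff_lt_or_eq.1 hi with h | h
    · exact hprev i h
    · subst h
      funext c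
      have hc := hy c
      have hc' := hy' c
      rw [cor_succ] at hc hc'
      rw [← cor_congr hprev c] at hc'
      have hk : 0 < β ^ i := pow_pos h0 i
      have hdiff : (1 - β) * β ^ i > β ^ (i + 1) := by rw [pow_succ]; nlinarith
      have hd : (dig n x A i b c : ℕ) = 0 ∨ (dig n x A i b c : ℕ) = 1 := by
        have := (dig n x A i b c).2; omega
      have hd' : (dig n x A i b' c : ℕ) = 0 ∨ (dig n x A i b' c : ℕ) = 1 := by
        have := (dig n x A i b' c).2; omega
      apply Fin.ext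
      unfold dr at hc hc'
      rcases hd with e | e <;> rcases hd' with e' | e' <;> rw [e] at hc ⊢ <;> rw [e'] at hc' ⊢ <;>
        push_cast at hc hc'
      · linarith [hc.1, hc.2, hc'.1, hc'.2]
      · linarith [hc.1, hc.2, hc'.1, hc'.2]

lemma measurableSet_cube (k : ℕ) (b : ℕ → Dg n) : MeasurableSet (cube n x A β k b) := by
  have : cube n x A β k b = ⋂ c, {y : Eu n | cor n x A β k b c ≤ y c ∧
      y c < cor n x A β k b c + β ^ k} := by
    ext y; simp [cube]
  rw [this]
  apply MeasurableSet.iInter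
  intro c
  have hc : Measurable fun y : Eu n => y c := by fun_prop
  apply MeasurableSet.inter
  · exact measurableSet_le measurable_const hc
  · exact measurableSet_lt hc measurable_const

lemma volume_cube (h0 : 0 < β) (k : ℕ) (b : ℕ → Dg n) :
    volume (cube n x A β k b) = ENNReal.ofReal ((β ^ k) ^ n) := by
  have h : cube n x A β k b = (WithLp.ofLp : Eu n → (Fin n → ℝ)) ⁻¹'
      (Set.pi Set.univ fun c => Set.Ico (cor n x A β k b c) (cor n x A β k b c + β ^ k)) := by
    ext y; simp [cube, Set.mem_pi]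
  rw [h, (PiLp.volume_preserving_ofLp (Fin n)).measure_preimage, volume_pi_pi]
  · simp only [Real.volume_Ico, add_sub_cancel_left, prod_const, card_univ, Fintype.card_fin]
    rw [← ENNReal.ofReal_pow (by positivity)]
  · apply MeasurableSet.nullMeasurableSet
    exact MeasurableSet.univ_pi fun c => measurableSet_Ico

lemma summable_dr (h0 : 0 < β) (h1 : β < 1 / 2) (b : ℕ → Dg n) (c : Fin n) :
    Summable fun i : ℕ => (1 - β) * β ^ i * dr n x A i b c := by
  have hg : Summable fun i : ℕ => (1 - β) * β ^ i :=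
    (summable_geometric_of_lt_one h0.le (by linarith)).mul_left _
  refine Summable.of_nonneg_of_le (fun i => ?_) (fun i => ?_) hg
  · have := dr_nonneg (x := x) (A := A) i b c
    have hk : 0 < β ^ i := pow_pos h0 i
    apply mul_nonneg (mul_nonneg _ hk.le) this; linarith
  · have := dr_le_one (x := x) (A := A) i b c
    have hk : 0 < β ^ i := pow_pos h0 i
    have : 0 ≤ (1 - β) * β ^ i := mul_nonneg (by linarith) hk.le
    nlinarith

lemma pt_bounds (h0 : 0 < β) (h1 : β < 1 / 2) (k : ℕ) (b : ℕ → Dg n) (c : Fin n) :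
    cor n x A β k b c ≤ pt n x A β b c ∧ pt n x A β b c ≤ cor n x A β k b c + β ^ k := by
  have hs := summable_dr (x := x) (A := A) h0 h1 b c
  have hpt : pt n x A β b c = ∑' i : ℕ, (1 - β) * β ^ i * dr n x A i b c := rfl
  have hsplit := hs.sum_add_tsum_nat_add k
  have htail : Summable fun i : ℕ => (1 - β) * β ^ (i + k) * dr n x A (i + k) b c :=
    (summable_nat_add_iff k).2 hs
  have hgs : Summable fun i : ℕ => (1 - β) * β ^ (i + k) := by
    have : (fun i : ℕ => (1 - β) * β ^ (i + k)) = fun i : ℕ => ((1 - β) * β ^ k) * β ^ i := by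
      funext i; rw [pow_add]; ring
    rw [this]
    exact (summable_geometric_of_lt_one h0.le (by linarith)).mul_left _
  have hgt : ∑' i : ℕ, (1 - β) * β ^ (i + k) = β ^ k := by
    have : (fun i : ℕ => (1 - β) * β ^ (i + k)) = fun i : ℕ => ((1 - β) * β ^ k) * β ^ i := by
      funext i; rw [pow_add]; ring
    rw [this, tsum_mul_left, tsum_geometric_of_lt_one h0.le (by linarith)]
    field_simp [show (1 - β) ≠ 0 by linarith]
  have hn1 : ∀ i : ℕ, 0 ≤ (1 - β) * β ^ (i + k) := fun i =>
    mul_nonneg (by linarith) (pow_pos h0 _).le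
  have t0 : 0 ≤ ∑' i : ℕ, (1 - β) * β ^ (i + k) * dr n x A (i + k) b c :=
    tsum_nonneg fun i => mul_nonneg (hn1 i) (dr_nonneg _ _ _)
  have t1 : ∑' i : ℕ, (1 - β) * β ^ (i + k) * dr n x A (i + k) b c ≤ β ^ k := by
    rw [← hgt]
    refine htail.tsum_le_tsum (fun i => ?_) hgs
    have := dr_le_one (x := x) (A := A) (i + k) b c
    have := hn1 i
    nlinarith
  rw [hpt, ← hsplit]
  unfold cor
  constructor <;> linarith

lemma continuous_dr (hx : 1 ≤ x) (hA : 1 ≤ A) (i : ℕ) (c : Fin n) :
    Continuous fun b : ℕ → Dg n => dr n x A i b c := by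
  have h1 : (fun b : ℕ → Dg n => dr n x A i b c) =
      (fun v : Fin (i + 1) → Dg n => dr n x A i (ext v) c) ∘
        (fun b : ℕ → Dg n => fun j : Fin (i + 1) => b j) := by
    funext b
    simp only [Function.comp]
    unfold dr dig
    have hf : frz n x A i b ↔ frz n x A i (ext fun j : Fin (i + 1) => b j) := by
      apply frz_congr hx hA
      intro s _ hs
      unfold ext
      rw [dif_pos (by omega)]
    by_cases h : frz n x A i b
    · rw [if_pos h, if_pos (hf.1 h)]
    · rw [if_neg h, if_neg (fun h' => h (hf.2 h'))]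
      unfold ext
      rw [dif_pos (by omega)]
  rw [h1]
  apply Continuous.comp
  · exact continuous_of_discreteTopology
  · exact continuous_pi fun j => continuous_apply _

lemma continuous_pt (hx : 1 ≤ x) (hA : 1 ≤ A) (h0 : 0 < β) (h1 : β < 1 / 2) :
    Continuous (pt n x A β) := by
  have h2 : Continuous fun b : ℕ → Dg n => fun c : Fin n =>
      ∑' i : ℕ, (1 - β) * β ^ i * dr n x A i b c := by
    apply continuous_pi
    intro c
    have hg : Summable fun i : ℕ => (1 - β) * β ^ i :=
      (summable_geometric_of_lt_one h0.le (by linarith)).mul_left _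
    refine continuous_tsum (fun i => ?_) hg (fun i b => ?_)
    · exact continuous_const.mul (continuous_dr hx hA i c)
    · have d0 := dr_nonneg (x := x) (A := A) i b c
      have d1 := dr_le_one (x := x) (A := A) i b c
      have hk : 0 < β ^ i := pow_pos h0 i
      have : 0 ≤ (1 - β) * β ^ i := mul_nonneg (by linarith) hk.le
      rw [Real.norm_eq_abs, abs_of_nonneg (by positivity)]
      nlinarith
  exact (PiLp.continuous_toLp 2 _).comp h2

/-- The compact set. -/
lemma isCompact_range_pt (hx : 1 ≤ x) (hA : 1 ≤ A) (h0 : 0 < β) (h1 : β < 1 / 2) :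
    IsCompact (Set.range (pt n x A β)) :=
  isCompact_range (continuous_pt hx hA h0 h1)

/-- coordinatewise close points are close -/
lemma norm_le_of_coord {z : Eu n} {δ : ℝ} (hδ : 0 ≤ δ) (h : ∀ c, |z c| ≤ δ) :
    ‖z‖ ≤ Real.sqrt n * δ := by
  rw [EuclideanSpace.norm_eq]
  have : ∑ i, ‖z i‖ ^ 2 ≤ n * δ ^ 2 := by
    calc ∑ i, ‖z i‖ ^ 2 ≤ ∑ _i : Fin n, δ ^ 2 := by
          apply sum_le_sum
          intro i _
          rw [Real.norm_eq_abs]
          exact pow_le_pow_left₀ (abs_nonneg _) (h i) 2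
      _ = n * δ ^ 2 := by simp
  calc √(∑ i, ‖z i‖ ^ 2) ≤ √(n * δ ^ 2) := Real.sqrt_le_sqrt this
    _ = √n * δ := by rw [Real.sqrt_mul (by positivity), Real.sqrt_sq hδ]

/-- the closed cubes -/
def ccube (a : Fin n → ℝ) (δ : ℝ) : Set (Eu n) := {y | ∀ c, a c ≤ y c ∧ y c ≤ a c + δ}

lemma dist_of_mem_ccube {a : Fin n → ℝ} {δ : ℝ} (hδ : 0 ≤ δ) {y z : Eu n}
    (hy : y ∈ ccube a δ) (hz : z ∈ ccube a δ) : ‖y - z‖ ≤ Real.sqrt n * δ := by
  apply norm_le_of_coord hδ
  intro c
  have h1 := hy c
  have h2 := hz c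
  simp only [PiLp.sub_apply]
  rw [abs_le]
  constructor <;> linarith [h1.1, h1.2, h2.1, h2.2]

lemma cube_subset_ccube (k : ℕ) (b : ℕ → Dg n) :
    cube n x A β k b ⊆ ccube (cor n x A β k b) (β ^ k) :=
  fun _ hy c => ⟨(hy c).1, (hy c).2.le⟩

lemma pt_mem_ccube (h0 : 0 < β) (h1 : β < 1 / 2) (k : ℕ) (b : ℕ → Dg n) :
    pt n x A β b ∈ ccube (cor n x A β k b) (β ^ k) :=
  fun c => pt_bounds h0 h1 k b c

end

end Pool.Agent.H60.Besov
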