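import Pool.Agent.H60.Besov.Count

namespace Pool.Agent.H60.Besov

open Finset

lemma hh_real (A m : ℕ) : (hh A m : ℝ) = A * m * (m + 1) / 2 := by
  induction m with
  | zero => simp [hh]
  | succ m ih =>
    simp only [hh]
    push_cast
    rw [ih]; ring

lemma sq_le_pow (m : ℕ) : ((m : ℝ) + 2) ^ 2 ≤ 8 * 2 ^ m := by
  induction m with
  | zero => norm_num
  | succ m ih =>
    rw [pow_succ (2 : ℝ) m]
    push_cast
    rcases Nat.eq_zero_or_pos m with h | h
    · subst h; norm_num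
    · have : (1 : ℝ) ≤ m := by exact_mod_cast h
      nlinarith

lemma len_le (n x A m : ℕ) :
    (len n x A m : ℝ) ≤ 16 * ((x + 1) * (A + 1)) * (2 : ℝ) ^ ((n : ℝ) * jj x A m + m) := by
  have h1 : (len n x A m : ℝ) = jj x A m + (2 : ℝ) ^ ((n : ℝ) * jj x A m) * ww x A m := by
    unfold len
    rw [MM_eq]
    push_cast
    congr 2
    rw [← pow_mul]
    have := Real.rpow_natCast 2 (n * jj x A m)
    rw [← this]; push_cast; rfl
  have h2 : (1 : ℝ) ≤ (2 : ℝ) ^ ((n : ℝ) * jj x A m) := by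
    apply Real.one_le_rpow (by norm_num); positivity
  have h3 : (len n x A m : ℝ) ≤ (2 : ℝ) ^ ((n : ℝ) * jj x A m) * (jj x A m + ww x A m) := by
    rw [h1]
    have : (0 : ℝ) ≤ jj x A m := by positivity
    nlinarith
  have h4 : ((jj x A m : ℝ) + ww x A m) ≤ 16 * ((x + 1) * (A + 1)) * 2 ^ m := by
    have e1 : (jj x A m : ℝ) = x * A * (m + 1) := by unfold jj; push_cast; ring
    have e2 : (ww x A m : ℝ) = (x + 1) * (A * (m + 1) * (m + 2) / 2 + (m + 1)) := by
      unfold ww gg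
      push_cast
      rw [hh_real]; push_cast; ring
    have hx0 : (0 : ℝ) ≤ x := by positivity
    have hA0 : (0 : ℝ) ≤ A := by positivity
    have hm0 : (0 : ℝ) ≤ m := by positivity
    have e3 : (x : ℝ) * A * (m + 1) ≤ ((x + 1) * (A + 1)) * ((m : ℝ) + 2) ^ 2 := by
      have i1 : (x : ℝ) * A ≤ (x + 1) * (A + 1) := by nlinarith
      have i2 : (m : ℝ) + 1 ≤ (m + 2) ^ 2 := by nlinarith
      calc (x : ℝ) * A * (m + 1) ≤ ((x + 1) * (A + 1)) * (m + 1) :=
            mul_le_mul_of_nonneg_right i1 (by positivity)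
        _ ≤ _ := mul_le_mul_of_nonneg_left i2 (by positivity)
    have e4 : ((x : ℝ) + 1) * (A * (m + 1) * (m + 2) / 2 + (m + 1)) ≤
        ((x + 1) * (A + 1)) * ((m : ℝ) + 2) ^ 2 := by
      rw [mul_assoc ((x : ℝ) + 1) ((A : ℝ) + 1)]
      apply mul_le_mul_of_nonneg_left _ (by positivity)
      have i1 : (A : ℝ) * (m + 1) * (m + 2) / 2 ≤ A * (m + 2) ^ 2 := by
        have : (m + 1 : ℝ) * (m + 2) / 2 ≤ (m + 2) ^ 2 := by nlinarith
        calc (A : ℝ) * (m + 1) * (m + 2) / 2 = A * ((m + 1 : ℝ) * (m + 2) / 2) := by ring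
          _ ≤ _ := mul_le_mul_of_nonneg_left this hA0
      have i2 : (m : ℝ) + 1 ≤ (m + 2) ^ 2 := by nlinarith
      nlinarith
    have h5 := sq_le_pow m
    rw [e1, e2]
    have h6 : (0 : ℝ) ≤ (x + 1) * (A + 1) := by positivity
    nlinarith
  calc (len n x A m : ℝ) ≤ (2 : ℝ) ^ ((n : ℝ) * jj x A m) * (jj x A m + ww x A m) := h3
    _ ≤ (2 : ℝ) ^ ((n : ℝ) * jj x A m) * (16 * ((x + 1) * (A + 1)) * 2 ^ m) :=
        mul_le_mul_of_nonneg_left h4 (by positivity)
    _ = _ := by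
        rw [Real.rpow_add (by norm_num), Real.rpow_natCast]; ring

lemma add_rpow_le' {a b r : ℝ} (ha : 0 ≤ a) (hb : 0 ≤ b) (hr : 0 ≤ r) :
    (a + b) ^ r ≤ 2 ^ r * (a ^ r + b ^ r) := by
  have h1 : a + b ≤ 2 * max a b := by
    rcases le_total a b with h | h
    · rw [max_eq_right h]; linarith
    · rw [max_eq_left h]; linarith
  calc (a + b) ^ r ≤ (2 * max a b) ^ r := Real.rpow_le_rpow (by positivity) h1 hr
    _ = 2 ^ r * (max a b) ^ r := Real.mul_rpow (by norm_num) (le_max_of_le_left ha)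
    _ ≤ 2 ^ r * (a ^ r + b ^ r) := by
        apply mul_le_mul_of_nonneg_left _ (by positivity)
        rcases le_total a b with h | h
        · rw [max_eq_right h]
          have : 0 ≤ a ^ r := Real.rpow_nonneg ha r
          linarith
        · rw [max_eq_left h]
          have : 0 ≤ b ^ r := Real.rpow_nonneg hb r
          linarith

lemma exists_bound_quad {a₁ a₂ : ℝ} (ha₁ : 0 ≤ a₁) (ha₂ : 0 < a₂) :
    ∃ C : ℝ, ∀ m : ℕ, a₁ * (m + 1) + m - a₂ * (m * (m + 1)) ≤ C - m := by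
  refine ⟨((a₁ + 2) / a₂ + 1) * (a₁ + 2), fun m => ?_⟩
  have hm0 : (0 : ℝ) ≤ m := by positivity
  have key : ((m : ℝ) + 1) * (a₁ + 2 - a₂ * m) ≤ ((a₁ + 2) / a₂ + 1) * (a₁ + 2) := by
    by_cases h : (a₁ + 2) / a₂ ≤ m
    · have : a₁ + 2 - a₂ * m ≤ 0 := by
        rw [div_le_iff₀ ha₂] at h
        linarith
      have h1 : ((m : ℝ) + 1) * (a₁ + 2 - a₂ * m) ≤ 0 :=
        mul_nonpos_of_nonneg_of_nonpos (by positivity) this
      have h2 : 0 ≤ ((a₁ + 2) / a₂ + 1) * (a₁ + 2) := by positivity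
      linarith
    · push Not at h
      have h1 : a₁ + 2 - a₂ * m ≤ a₁ + 2 := by
        have : 0 ≤ a₂ * m := by positivity
        linarith
      calc ((m : ℝ) + 1) * (a₁ + 2 - a₂ * m) ≤ ((m : ℝ) + 1) * (a₁ + 2) :=
            mul_le_mul_of_nonneg_left h1 (by positivity)
        _ ≤ _ := mul_le_mul_of_nonneg_right (by linarith) (by positivity)
  nlinarith

/-- For suitable `A` the moments are summable. -/
lemma exists_A {n x : ℕ} (hn : 1 ≤ n) (hx : 1 ≤ x) {κ r : ℝ} (hκ : 0 < κ) (hr : 1 < r) :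
    ∃ A : ℕ, 1 ≤ A ∧ Summable fun m => (len n x A m : ℝ) * (ep n x A κ m) ^ r := by
  obtain ⟨A, hA⟩ := exists_nat_ge ((r * κ * x + 2) / (n * x * (r - 1)) + 1)
  have hn' : (1 : ℝ) ≤ n := by exact_mod_cast hn
  have hx' : (1 : ℝ) ≤ x := by exact_mod_cast hx
  have hr1 : 0 < r - 1 := by linarith
  have hden : 0 < (n : ℝ) * x * (r - 1) := by positivity
  have hA1 : (1 : ℝ) ≤ A := by
    have : 0 ≤ (r * κ * x + 2) / (n * x * (r - 1)) := by positivity
    linarith
  have hA2 : r * κ * x + 2 ≤ n * x * A * (r - 1) := by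
    have : (r * κ * x + 2) / (n * x * (r - 1)) ≤ A := by linarith
    rw [div_le_iff₀ hden] at this
    nlinarith
  refine ⟨A, by exact_mod_cast hA1, ?_⟩
  obtain ⟨C, hC⟩ := exists_bound_quad (a₁ := (n : ℝ) * (x * A)) (a₂ := κ * r * x * A / 2)
    (by positivity) (by positivity)
  have hgeo : Summable fun m : ℕ => (16 * ((x + 1) * (A + 1)) * (2 ^ r * (2 ^ C + 1))) *
      ((1 / 2 : ℝ) ^ m) :=
    (summable_geometric_of_lt_one (by norm_num) (by norm_num)).mul_left _
  refine Summable.of_nonneg_of_le (fun m => ?_) (fun m => ?_) hgeo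
  · have := ep_pos (n := n) (x := x) (A := A) κ m
    positivity
  · have hlen := len_le n x A m
    have e1 : (jj x A m : ℝ) = x * A * (m + 1) := by unfold jj; push_cast; ring
    set a : ℝ := (2 : ℝ) ^ (-(κ * (x * hh A m))) with ha
    set b : ℝ := (2 : ℝ) ^ (-((n : ℝ) * jj x A m)) * (2 : ℝ) ^ (κ * (x * (m + 1))) with hb
    have hep : ep n x A κ m = a + b := rfl
    have h1 : (ep n x A κ m) ^ r ≤ 2 ^ r * (a ^ r + b ^ r) := by
      rw [hep]; exact add_rpow_le' (by positivity) (by positivity) (by linarith)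
    have hhalf : ((1 / 2 : ℝ) ^ m) = (2 : ℝ) ^ (-(m : ℝ)) := by
      rw [Real.rpow_neg (by norm_num), Real.rpow_natCast, one_div, inv_pow]
    have h2 : (2 : ℝ) ^ ((n : ℝ) * jj x A m + m) * a ^ r ≤ 2 ^ C * (1 / 2 : ℝ) ^ m := by
      rw [ha, ← Real.rpow_mul (by norm_num), ← Real.rpow_add (by norm_num), hhalf,
        ← Real.rpow_add (by norm_num)]
      apply Real.rpow_le_rpow_of_exponent_le (by norm_num)
      have := hC m
      rw [e1, hh_real]
      have e : (n : ℝ) * (x * A * (m + 1)) + m + -(κ * (x * (A * m * (m + 1) / 2))) * r =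
          (n : ℝ) * (x * A) * (m + 1) + m - κ * r * x * A / 2 * (m * (m + 1)) := by ring
      rw [e]; linarith
    have h3 : (2 : ℝ) ^ ((n : ℝ) * jj x A m + m) * b ^ r ≤ (1 / 2 : ℝ) ^ m := by
      rw [hb, ← Real.rpow_add (by norm_num), ← Real.rpow_mul (by norm_num),
        ← Real.rpow_add (by norm_num), hhalf]
      apply Real.rpow_le_rpow_of_exponent_le (by norm_num)
      rw [e1]
      have hm : (0 : ℝ) ≤ (m : ℝ) + 1 := by positivity
      nlinarith
    have h4 : (len n x A m : ℝ) * (ep n x A κ m) ^ r ≤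
        (16 * ((x + 1) * (A + 1)) * (2 : ℝ) ^ ((n : ℝ) * jj x A m + m)) *
          (2 ^ r * (a ^ r + b ^ r)) := by
      apply mul_le_mul hlen h1 (Real.rpow_nonneg (ep_pos _ _).le _) (by positivity)
    refine h4.trans ?_
    have h5 : (2 : ℝ) ^ ((n : ℝ) * jj x A m + m) * (a ^ r + b ^ r) ≤
        (2 ^ C + 1) * (1 / 2 : ℝ) ^ m := by
      rw [mul_add, add_mul, one_mul]; exact add_le_add h2 h3
    calc (16 * ((x + 1) * (A + 1)) * (2 : ℝ) ^ ((n : ℝ) * jj x A m + m)) *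
          (2 ^ r * (a ^ r + b ^ r))
        = (16 * ((x + 1) * (A + 1)) * 2 ^ r) *
          ((2 : ℝ) ^ ((n : ℝ) * jj x A m + m) * (a ^ r + b ^ r)) := by ring
      _ ≤ (16 * ((x + 1) * (A + 1)) * 2 ^ r) * ((2 ^ C + 1) * (1 / 2 : ℝ) ^ m) :=
          mul_le_mul_of_nonneg_left h5 (by positivity)
      _ = _ := by ring

lemma sum_window {n x A : ℕ} (hx : 1 ≤ x) (hA : 1 ≤ A) (φ : ℕ → ℝ) (m : ℕ) :
    ∑ k ∈ range (TT n x A m), φ (st n x A k).1 = ∑ i ∈ range m, (len n x A i : ℝ) * φ i := by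
  induction m with
  | zero => simp [TT]
  | succ m ih =>
    rw [sum_range_succ, ← ih]
    simp only [TT]
    rw [sum_range_add]
    congr 1
    rw [sum_congr rfl (g := fun _ => φ m)]
    · simp
    · intro o ho
      rw [mem_range] at ho
      rw [st_add hx hA m o ho]

lemma le_TT {n x A : ℕ} (hx : 1 ≤ x) (hA : 1 ≤ A) (m : ℕ) : m ≤ TT n x A m := by
  induction m with
  | zero => simp
  | succ m ih =>
    have := len_pos (n := n) hx hA m
    simp only [TT]; omega

/-- The `r`-th powers of the moment bounds have bounded sums. -/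
lemma exists_bound_sum {n x A : ℕ} (hx : 1 ≤ x) (hA : 1 ≤ A) {κ r : ℝ}
    (hs : Summable fun m => (len n x A m : ℝ) * (ep n x A κ m) ^ r) :
    ∃ C : ℝ, ∀ N : ℕ, ∑ k ∈ range N, (ep n x A κ (st n x A k).1) ^ r ≤ C := by
  refine ⟨∑' m, (len n x A m : ℝ) * (ep n x A κ m) ^ r, fun N => ?_⟩
  calc ∑ k ∈ range N, (ep n x A κ (st n x A k).1) ^ r
      ≤ ∑ k ∈ range (TT n x A N), (ep n x A κ (st n x A k).1) ^ r := by
        apply sum_le_sum_of_subset_of_nonneg
        · intro k hk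
          rw [mem_range] at hk ⊢
          exact lt_of_lt_of_le hk (le_TT hx hA N)
        · intro k _ _
          exact Real.rpow_nonneg (ep_pos _ _).le _
    _ = ∑ i ∈ range N, (len n x A i : ℝ) * (ep n x A κ i) ^ r :=
        sum_window hx hA (fun m => (ep n x A κ m) ^ r) N
    _ ≤ _ := hs.sum_le_tsum _ fun i _ =>
        mul_nonneg (by positivity) (Real.rpow_nonneg (ep_pos _ _).le _)

end Pool.Agent.H60.Besov
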