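import Pool.Agent.H60.Besov.Geom
import Pool.Agent.H60.Besov.Summ

namespace Pool.Agent.H60.Besov

open Finset MeasureTheory Filter Topology

section

variable {n x A : ℕ} {β : ℝ}

lemma sel_lt (m : ℕ) (b : ℕ → Dg n) : sel n x A m b < MM n x A m := by
  unfold sel MM; exact Fin.is_lt _

lemma dig_congr (hx : 1 ≤ x) (hA : 1 ≤ A) {N : ℕ} {b b' : ℕ → Dg n}
    (h : ∀ i < N, b i = b' i) : ∀ i < N, dig n x A i b = dig n x A i b' := by
  intro i hi
  have hf : frz n x A i b ↔ frz n x A i b' := frz_congr hx hA fun s _ hs => h s (by omega)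
  unfold dig
  by_cases hfr : frz n x A i b
  · rw [if_pos hfr, if_pos (hf.1 hfr)]
  · rw [if_neg hfr, if_neg (fun h' => hfr (hf.2 h')), h i hi]

/-- time of the peak in super-window `m` -/
noncomputable def pk (n x A m : ℕ) (b : ℕ → Dg n) : ℕ :=
  TT n x A m + (jj x A m + sel n x A m b * ww x A m + gg A m)

lemma gg_le_ww (m : ℕ) : gg A m ≤ ww x A m := by unfold ww; nlinarith [Nat.zero_le (x * gg A m)]

lemma pk_le (m : ℕ) (b : ℕ → Dg n) : pk n x A m b ≤ TT n x A (m + 1) := by
  have h1 := sel_lt (x := x) (A := A) m b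
  have h2 := gg_le_ww (x := x) (A := A) m
  have h3 : (sel n x A m b + 1) * ww x A m ≤ MM n x A m * ww x A m := Nat.mul_le_mul_right _ h1
  have e : (sel n x A m b + 1) * ww x A m = sel n x A m b * ww x A m + ww x A m := by ring
  unfold pk
  simp only [TT, len]
  omega

lemma le_pk (m : ℕ) (b : ℕ → Dg n) : TT n x A m + jj x A m ≤ pk n x A m b := by
  unfold pk; omega

lemma ht_pk (hx : 1 ≤ x) (hA : 1 ≤ A) (m : ℕ) (b : ℕ → Dg n) :
    ht n x A (pk n x A m b) b = ((x * (m + 1) : ℕ) : ℤ) := by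
  have h := (ht_window hx hA m b (ht_TT hx hA m b)).2 (sel n x A m b) (sel_lt m b) (gg A m)
    (gg_le_ww m)
  unfold pk
  rw [h]
  unfold rel
  rw [if_pos rfl, if_pos le_rfl]
  unfold gg; push_cast; ring

lemma sel_eq_of_dig (hx : 1 ≤ x) (hA : 1 ≤ A) {m k : ℕ} (hk : TT n x A m + jj x A m ≤ k)
    {b b' : ℕ → Dg n} (h : ∀ i < k, dig n x A i b = dig n x A i b') :
    sel n x A m b = sel n x A m b' := by
  apply sel_congr
  intro o ho
  have h1 := h (TT n x A m + o) (by omega)
  have hS : TT n x A m + o ∈ SP n x A := ⟨m, o, ho, rfl⟩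
  unfold dig at h1
  rwa [if_neg (not_frz_of_SP hx hA hS b), if_neg (not_frz_of_SP hx hA hS b')] at h1

/-- scale identity -/
lemma scale_eq {d : ℝ} (hd : 0 < d) (hβ : β = (2 : ℝ) ^ (-((n : ℝ) * x / ((x + 1) * d))))
    (k : ℕ) (b : ℕ → Dg n) :
    (β ^ k) ^ d = (2 : ℝ) ^ (-((n : ℝ) / (x + 1) * ht n x A k b)) *
      (((2 : ℝ) ^ n) ^ (fr n x A k b))⁻¹ := by
  have h1 : (((2 : ℝ) ^ n) ^ (fr n x A k b))⁻¹ = (2 : ℝ) ^ (-((n : ℝ) * fr n x A k b)) := by
    rw [Real.rpow_neg (by norm_num), ← pow_mul]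
    congr 1
    exact_mod_cast (Real.rpow_natCast 2 (n * fr n x A k b)).symm
  rw [h1, ← Real.rpow_add (by norm_num), hβ, ← Real.rpow_natCast, ← Real.rpow_mul (by positivity),
    ← Real.rpow_mul (by positivity), ht_eq]
  congr 1
  push_cast
  have hx : (x : ℝ) + 1 ≠ 0 := by positivity
  have hd' : d ≠ 0 := hd.ne'
  field_simp
  ring

/-- index of the covering cube attached to a finite word -/
noncomputable def qi (n x A m : ℕ) (v : Fin (TT n x A (m + 1)) → Dg n) : ℕ × (ℕ → Dg n) :=
  (pk n x A m (ext v), fun i => if i < pk n x A m (ext v) then dig n x A i (ext v) else 0)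

/-- corner of the cube with index `q` -/
noncomputable def qcor (β : ℝ) (q : ℕ × (ℕ → Dg n)) (c : Fin n) : ℝ :=
  ∑ i ∈ range q.1, (1 - β) * β ^ i * ((q.2 i c : ℕ) : ℝ)

lemma qcor_qi (m : ℕ) (v : Fin (TT n x A (m + 1)) → Dg n) (c : Fin n) :
    qcor β (qi n x A m v) c = cor n x A β (pk n x A m (ext v)) (ext v) c := by
  unfold qcor cor qi
  apply sum_congr rfl
  intro i hi
  rw [mem_range] at hi
  simp only at hi
  simp only [hi, if_true]
  rfl

lemma sum_image_le {ι Y : Type*} [DecidableEq ι] [Fintype Y] [Nonempty Y] (q : Y → ι) (f : ι → ℝ) (C : ℝ)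
    (h : ∀ y, f (q y) ≤ C * (((univ.filter fun z => q z = q y).card : ℝ) / Fintype.card Y)) :
    ∑ i ∈ univ.image q, f i ≤ C := by
  have hY : (0 : ℝ) < Fintype.card Y := by exact_mod_cast Fintype.card_pos
  calc ∑ i ∈ univ.image q, f i
      ≤ ∑ i ∈ univ.image q, C * (((univ.filter fun z => q z = i).card : ℝ) / Fintype.card Y) := by
        apply sum_le_sum
        intro i hi
        rw [mem_image] at hi
        obtain ⟨y, -, rfl⟩ := hi
        exact h y
    _ = C * ((∑ i ∈ univ.image q, ((univ.filter fun z => q z = i).card : ℝ)) /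
          Fintype.card Y) := by
        rw [← mul_sum, sum_div]
    _ = C := by
        have : (∑ i ∈ univ.image q, ((univ.filter fun z => q z = i).card : ℝ)) =
            Fintype.card Y := by
          have h2 := card_eq_sum_card_image q (univ : Finset Y)
          rw [card_univ] at h2
          exact_mod_cast h2.symm
        rw [this, div_self hY.ne', mul_one]

open Classical in
/-- The sum of the `d`-th powers of the diameters of the covering cubes. -/
lemma cover_sum (hx : 1 ≤ x) (hA : 1 ≤ A) {d : ℝ} (hd : 0 < d) (h0 : 0 < β)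
    (hβ : β = (2 : ℝ) ^ (-((n : ℝ) * x / ((x + 1) * d)))) (m : ℕ) :
    ∑ q ∈ univ.image (qi n x A m), (Real.sqrt n * β ^ q.1) ^ d ≤
      Real.sqrt n ^ d * (2 : ℝ) ^ (-((n : ℝ) / (x + 1) * (x * (m + 1)))) := by
  have : Nonempty (Fin (TT n x A (m + 1)) → Dg n) := ⟨fun _ => 0⟩
  apply sum_image_le
  intro v
  set b := ext v with hb
  set k := pk n x A m b with hk
  have hq1 : (qi n x A m v).1 = k := rfl
  rw [hq1]
  have hkN : k ≤ TT n x A (m + 1) := pk_le m b
  have hs := scale_eq (A := A) (x := x) (n := n) hd hβ k b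
  rw [Real.mul_rpow (Real.sqrt_nonneg _) (by positivity), hs, hk, ht_pk hx hA, mul_assoc]
  have hcast : (((x * (m + 1) : ℕ) : ℤ) : ℝ) = x * (m + 1) := by push_cast; ring
  rw [hcast]
  apply mul_le_mul_of_nonneg_left _ (Real.rpow_nonneg (Real.sqrt_nonneg _) _)
  apply mul_le_mul_of_nonneg_left _ (by positivity)
  have hagree := card_agree (n := n) hx hA hkN b
  have hsub : (univ.filter fun w : Fin (TT n x A (m + 1)) → Dg n => ∀ i < k, dig n x A i (ext w) = dig n x A i b) ⊆
      (univ.filter fun w : Fin (TT n x A (m + 1)) → Dg n => qi n x A m w = qi n x A m v) := by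
    intro w hw
    simp only [mem_filter, mem_univ, true_and] at hw ⊢
    have hsel : sel n x A m (ext w) = sel n x A m b :=
      sel_eq_of_dig hx hA (le_pk m b) hw
    have hpk : pk n x A m (ext w) = pk n x A m b := by unfold pk; rw [hsel]
    unfold qi
    rw [hpk]
    refine Prod.ext rfl ?_
    funext i
    simp only
    by_cases hi : i < pk n x A m b
    · rw [if_pos hi, if_pos hi]; exact hw i hi
    · rw [if_neg hi, if_neg hi]
  have hcard := card_le_card hsub
  have hY : (Fintype.card (Fin (TT n x A (m + 1)) → Dg n) : ℝ) = ((2 : ℝ) ^ n) ^ (TT n x A (m + 1)) := by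
    rw [Fintype.card_pi]; simp
  rw [hY, le_div_iff₀ (by positivity)]
  have h2 : (((univ.filter fun w : Fin (TT n x A (m + 1)) → Dg n =>
      ∀ i < k, dig n x A i (ext w) = dig n x A i b).card : ℝ)) *
        ((2 : ℝ) ^ n) ^ (fr n x A k b) = ((2 : ℝ) ^ n) ^ (TT n x A (m + 1)) := by exact_mod_cast hagree
  rw [← h2]
  rw [mul_comm (_⁻¹), mul_assoc, mul_inv_cancel₀ (by positivity), mul_one]
  exact_mod_cast hcard

lemma subset_cover (hx : 1 ≤ x) (hA : 1 ≤ A) (h0 : 0 < β) (h1 : β < 1 / 2) (m : ℕ)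
    (b : ℕ → Dg n) : ∃ v : Fin (TT n x A (m + 1)) → Dg n,
      pt n x A β b ∈ ccube (qcor β (qi n x A m v)) (β ^ (qi n x A m v).1) := by
  refine ⟨fun i => b i, ?_⟩
  set v : Fin (TT n x A (m + 1)) → Dg n := fun i => b i with hv
  have hag : ∀ i < TT n x A (m + 1), b i = ext v i := by
    intro i hi
    simp [ext, hi, hv]
  have hdig := dig_congr (n := n) hx hA hag
  have hk := pk_le (n := n) (x := x) (A := A) m (ext v)
  have hmem := pt_mem_ccube (x := x) (A := A) h0 h1 (pk n x A m (ext v)) b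
  have hc : qcor β (qi n x A m v) = cor n x A β (pk n x A m (ext v)) b := by
    funext c
    rw [qcor_qi]
    exact cor_congr (fun i hi => (hdig i (by omega)).symm) c
  rw [hc]
  exact hmem

open Classical in
/-- The Cantor set is null for the `d`-dimensional Hausdorff measure. -/
theorem hausdorff_null (hn : 1 ≤ n) (hx : 1 ≤ x) (hA : 1 ≤ A) {d : ℝ} (hd : 0 < d) (h0 : 0 < β)
    (h1 : β < 1 / 2) (hβ : β = (2 : ℝ) ^ (-((n : ℝ) * x / ((x + 1) * d)))) :
    μH[d] (Set.range (pt n x A β)) = 0 := by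
  have hnR : (1 : ℝ) ≤ n := by exact_mod_cast hn
  have hxR : (1 : ℝ) ≤ x := by exact_mod_cast hx
  have hle := Measure.hausdorffMeasure_le_liminf_sum (X := Eu n) (β := ℕ)
    (ι := fun m => {q // q ∈ univ.image (qi n x A m)}) d (Set.range (pt n x A β)) (l := atTop)
    (fun m => ENNReal.ofReal (Real.sqrt n * β ^ m)) ?_
    (fun m q => ccube (qcor β q.1) (β ^ q.1.1)) ?_ ?_
  · refine le_antisymm (hle.trans ?_) bot_le
    have hbound : ∀ m : ℕ, ∑ i : {q // q ∈ univ.image (qi n x A m)},
        Metric.ediam (ccube (qcor β i.1) (β ^ i.1.1)) ^ d ≤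
        ENNReal.ofReal (Real.sqrt n ^ d * (2 : ℝ) ^ (-((n : ℝ) / (x + 1) * (x * (m + 1))))) := by
      intro m
      have hc := cover_sum (n := n) (β := β) hx hA hd h0 hβ m
      refine le_trans ?_ (ENNReal.ofReal_le_ofReal hc)
      rw [ENNReal.ofReal_sum_of_nonneg (fun q _ => by positivity)]
      rw [← Finset.sum_coe_sort (univ.image (qi n x A m))
        (fun q => ENNReal.ofReal ((Real.sqrt n * β ^ q.1) ^ d))]
      apply sum_le_sum
      rintro q -
      rw [← ENNReal.ofReal_rpow_of_nonneg (by positivity) hd.le]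
      apply ENNReal.rpow_le_rpow _ hd.le
      apply Metric.ediam_le
      intro y hy z hz
      rw [edist_dist, dist_eq_norm]
      exact ENNReal.ofReal_le_ofReal (dist_of_mem_ccube (by positivity) hy hz)
    have hlim : Tendsto (fun m : ℕ =>
        ENNReal.ofReal (Real.sqrt n ^ d * (2 : ℝ) ^ (-((n : ℝ) / (x + 1) * (x * (m + 1))))))
        atTop (𝓝 0) := by
      rw [← ENNReal.ofReal_zero]
      apply ENNReal.tendsto_ofReal
      have hc : 0 < (n : ℝ) / (x + 1) * x := by positivity
      have e : ∀ m : ℕ, Real.sqrt n ^ d * (2 : ℝ) ^ (-((n : ℝ) / (x + 1) * (x * (m + 1)))) =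
          Real.sqrt n ^ d * ((2 : ℝ) ^ (-((n : ℝ) / (x + 1) * x))) ^ (m + 1) := by
        intro m
        rw [← Real.rpow_natCast, ← Real.rpow_mul (by norm_num)]
        congr 2; push_cast; ring
      simp_rw [e]
      rw [show (0 : ℝ) = Real.sqrt n ^ d * 0 by ring]
      apply Tendsto.const_mul
      apply (tendsto_add_atTop_iff_nat 1).2
      apply tendsto_pow_atTop_nhds_zero_of_lt_one (by positivity)
      apply Real.rpow_lt_one_of_one_lt_of_neg (by norm_num)
      linarith
    calc liminf (fun m => ∑ i : {q // q ∈ univ.image (qi n x A m)},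
          Metric.ediam (ccube (qcor β i.1) (β ^ i.1.1)) ^ d) atTop
        ≤ liminf (fun m : ℕ =>
            ENNReal.ofReal (Real.sqrt n ^ d * (2 : ℝ) ^ (-((n : ℝ) / (x + 1) * (x * (m + 1))))))
            atTop := liminf_le_liminf (Eventually.of_forall hbound)
      _ = 0 := hlim.liminf_eq
      _ ≤ 0 := le_rfl
  · -- radii tend to zero
    rw [← ENNReal.ofReal_zero]
    apply ENNReal.tendsto_ofReal
    rw [show (0 : ℝ) = Real.sqrt n * 0 by ring]
    apply Tendsto.const_mul
    exact tendsto_pow_atTop_nhds_zero_of_lt_one h0.le (by linarith)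
  · -- diameters
    refine Eventually.of_forall fun m q => ?_
    apply Metric.ediam_le
    intro y hy z hz
    rw [edist_dist, dist_eq_norm]
    apply ENNReal.ofReal_le_ofReal
    refine (dist_of_mem_ccube (by positivity) hy hz).trans ?_
    apply mul_le_mul_of_nonneg_left _ (Real.sqrt_nonneg _)
    apply pow_le_pow_of_le_one h0.le (by linarith)
    obtain ⟨q, hq⟩ := q
    rw [mem_image] at hq
    obtain ⟨v, -, rfl⟩ := hq
    calc m ≤ TT n x A m := le_TT hx hA m
      _ ≤ pk n x A m (ext v) := by have := le_pk (n := n) (x := x) (A := A) m (ext v); omega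
  · -- covering
    refine Eventually.of_forall fun m => ?_
    rintro _ ⟨b, rfl⟩
    obtain ⟨v, hv⟩ := subset_cover (n := n) (β := β) hx hA h0 h1 m b
    rw [Set.mem_iUnion]
    exact ⟨⟨qi n x A m v, mem_image_of_mem _ (mem_univ _)⟩, hv⟩

end

end Pool.Agent.H60.Besov
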