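import Mathlib

namespace Pool.Agent.H60.Besov

open Finset

/-- A digit: a vector of `0`s and `1`s. -/
abbrev Dg (n : ℕ) := Fin n → Fin 2

section sched

variable (n x A : ℕ)

/-- number of selecting digits in super-window `m` -/
def jj (m : ℕ) : ℕ := x * A * (m + 1)

/-- base depth, `hh 0 = 0`, `hh (m+1) = hh m + A (m+1)` -/
def hh : ℕ → ℕ
  | 0 => 0
  | m + 1 => hh m + A * (m + 1)

/-- length of the rising run -/
def gg (m : ℕ) : ℕ := hh A (m + 1) + (m + 1)

/-- slot length -/
def ww (m : ℕ) : ℕ := (x + 1) * gg A m

/-- number of slots -/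
def MM (m : ℕ) : ℕ := Fintype.card (Fin (jj x A m) → Dg n)

/-- length of super-window `m` -/
def len (m : ℕ) : ℕ := jj x A m + MM n x A m * ww x A m

/-- start of super-window `m` -/
def TT : ℕ → ℕ
  | 0 => 0
  | m + 1 => TT m + len n x A m

/-- (super-window, offset) of a position -/
def st : ℕ → ℕ × ℕ
  | 0 => (0, 0)
  | i + 1 => if (st i).2 + 1 < len n x A (st i).1 then ((st i).1, (st i).2 + 1)
      else ((st i).1 + 1, 0)

/-- the slot in which `b` is selected in super-window `m` -/
noncomputable def sel (m : ℕ) (b : ℕ → Dg n) : ℕ :=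
  (Fintype.equivFin (Fin (jj x A m) → Dg n)) (fun i => b (TT n x A m + i))

/-- Position `i` is frozen for `b`. -/
def frz (i : ℕ) (b : ℕ → Dg n) : Prop :=
  jj x A (st n x A i).1 ≤ (st n x A i).2 ∧
    if sel n x A (st n x A i).1 b =
        ((st n x A i).2 - jj x A (st n x A i).1) / ww x A (st n x A i).1 then
      ((st n x A i).2 - jj x A (st n x A i).1) % ww x A (st n x A i).1 < gg A (st n x A i).1
    else (((st n x A i).2 - jj x A (st n x A i).1) % ww x A (st n x A i).1) % (x + 1) = x

open Classical in
/-- the digit sequence produced by `b` -/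
noncomputable def dig (i : ℕ) (b : ℕ → Dg n) : Dg n := if frz n x A i b then 0 else b i

open Classical in
/-- height after `k` steps -/
noncomputable def ht (k : ℕ) (b : ℕ → Dg n) : ℤ :=
  ∑ i ∈ range k, if frz n x A i b then (x : ℤ) else -1

open Classical in
/-- number of free positions among the first `k` -/
noncomputable def fr (k : ℕ) (b : ℕ → Dg n) : ℕ :=
  ((range k).filter fun i => ¬ frz n x A i b).card

variable {n x A}

lemma ht_eq (k : ℕ) (b : ℕ → Dg n) :
    ht n x A k b = (x : ℤ) * k - (x + 1) * fr n x A k b := by
  classical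
  unfold ht fr
  induction k with
  | zero => simp
  | succ k ih =>
    rw [sum_range_succ, ih, range_add_one, filter_insert]
    by_cases h : frz n x A k b
    · simp only [h, not_true_eq_false, if_true, if_false]
      push_cast; ring
    · simp only [h, not_false_eq_true, if_true, if_false]
      rw [card_insert_of_notMem (by simp)]
      push_cast; ring

section pos

variable (hx : 1 ≤ x) (hA : 1 ≤ A)

include hx hA in
lemma jj_pos (m : ℕ) : 0 < jj x A m := by unfold jj; positivity

include hx hA in
lemma len_pos (m : ℕ) : 0 < len n x A m := by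
  have := jj_pos hx hA m
  unfold len
  omega

lemma gg_pos (m : ℕ) : 0 < gg A m := by unfold gg; omega

lemma ww_pos (m : ℕ) : 0 < ww x A m := by
  have := gg_pos (A := A) m
  unfold ww; positivity

lemma MM_eq (m : ℕ) : MM n x A m = (2 ^ n) ^ jj x A m := by
  unfold MM; simp

lemma MM_pos (m : ℕ) : 0 < MM n x A m := by
  rw [MM_eq]; positivity

include hx hA in
lemma st_add (m o : ℕ) (ho : o < len n x A m) : st n x A (TT n x A m + o) = (m, o) := by
  induction m generalizing o with
  | zero =>
    induction o with
    | zero => simp [TT, st]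
    | succ o ih =>
      have h := ih (by omega)
      simp only [TT, zero_add] at h ⊢
      rw [st, h]
      simp [ho]
  | succ m ihm =>
    induction o with
    | zero =>
      have hl := len_pos (n := n) hx hA m
      have h := ihm (len n x A m - 1) (by omega)
      have e : TT n x A (m + 1) + 0 = TT n x A m + (len n x A m - 1) + 1 := by
        simp only [TT]; omega
      rw [e, st, h]
      have : ¬ (len n x A m - 1 + 1 < len n x A m) := by omega
      simp [this]
    | succ o ih =>
      have h := ih (by omega)
      rw [← add_assoc, st, h]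
      simp [ho]

include hx hA in
lemma exists_pos (i : ℕ) : ∃ m o, o < len n x A m ∧ i = TT n x A m + o := by
  induction i with
  | zero => exact ⟨0, 0, len_pos hx hA 0, by simp [TT]⟩
  | succ i ih =>
    obtain ⟨m, o, ho, rfl⟩ := ih
    by_cases h : o + 1 < len n x A m
    · exact ⟨m, o + 1, h, by ring⟩
    · refine ⟨m + 1, 0, len_pos hx hA _, ?_⟩
      simp only [TT]; omega

include hx hA in
lemma not_frz_of_lt (m o : ℕ) (ho : o < jj x A m) (b : ℕ → Dg n) :
    ¬ frz n x A (TT n x A m + o) b := by
  have hl : o < len n x A m := by unfold len; omega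
  unfold frz
  rw [st_add hx hA m o hl]
  simp only [not_and]
  intro h; omega

include hx hA in
/-- frozen rule inside slots -/
lemma frz_iff (m t o : ℕ) (ht : t < MM n x A m) (ho : o < ww x A m) (b : ℕ → Dg n) :
    frz n x A (TT n x A m + (jj x A m + t * ww x A m + o)) b ↔
      if sel n x A m b = t then o < gg A m else o % (x + 1) = x := by
  have hl : jj x A m + t * ww x A m + o < len n x A m := by
    unfold len
    have : (t + 1) * ww x A m ≤ MM n x A m * ww x A m := Nat.mul_le_mul_right _ ht
    have e : (t + 1) * ww x A m = t * ww x A m + ww x A m := by ring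
    omega
  unfold frz
  rw [st_add hx hA m _ hl]
  have e1 : jj x A m + t * ww x A m + o - jj x A m = t * ww x A m + o := by omega
  have e2 : (t * ww x A m + o) / ww x A m = t := by
    rw [mul_comm, Nat.mul_add_div (ww_pos m), Nat.div_eq_of_lt ho, add_zero]
  have e3 : (t * ww x A m + o) % ww x A m = o := by
    rw [mul_comm, Nat.mul_add_mod, Nat.mod_eq_of_lt ho]
  simp only [e1, e2, e3]
  constructor
  · exact fun h => h.2
  · exact fun h => ⟨by omega, h⟩

/-- relative height inside a slot -/
def rel (x g : ℕ) (s : Prop) [Decidable s] (o : ℕ) : ℤ :=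
  if s then (if o ≤ g then (x : ℤ) * o else (x : ℤ) * g - ((o : ℤ) - g)) else -((o % (x + 1) : ℕ) : ℤ)

include hx hA in
/-- The height formula. -/
lemma ht_window (m : ℕ) (b : ℕ → Dg n)
    (h0 : ht n x A (TT n x A m) b = -((x * hh A m : ℕ) : ℤ)) :
    (∀ o, o ≤ jj x A m → ht n x A (TT n x A m + o) b = -((x * hh A m : ℕ) : ℤ) - o) ∧
    (∀ t, t < MM n x A m → ∀ o, o ≤ ww x A m →
      ht n x A (TT n x A m + (jj x A m + t * ww x A m + o)) b =
        -((x * hh A (m + 1) : ℕ) : ℤ) + rel x (gg A m) (sel n x A m b = t) o) := by
  have h1 : ∀ o, o ≤ jj x A m →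
      ht n x A (TT n x A m + o) b = -((x * hh A m : ℕ) : ℤ) - o := by
    intro o
    induction o with
    | zero => intro _; simpa using h0
    | succ o ih =>
      intro ho
      have hf := not_frz_of_lt (n := n) hx hA m o (by omega) b
      have := ih (by omega)
      rw [← add_assoc]
      unfold ht at this ⊢
      rw [sum_range_succ, this, if_neg hf]
      push_cast; ring
  refine ⟨h1, ?_⟩
  have hend : ht n x A (TT n x A m + jj x A m) b = -((x * hh A (m + 1) : ℕ) : ℤ) := by
    rw [h1 _ le_rfl]
    simp only [hh, jj]
    push_cast; ring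
  -- one slot, from its start to its end
  have key : ∀ t, t < MM n x A m →
      ht n x A (TT n x A m + (jj x A m + t * ww x A m)) b = -((x * hh A (m + 1) : ℕ) : ℤ) →
      ∀ o, o ≤ ww x A m →
      ht n x A (TT n x A m + (jj x A m + t * ww x A m + o)) b =
        -((x * hh A (m + 1) : ℕ) : ℤ) + rel x (gg A m) (sel n x A m b = t) o := by
    intro t ht' hst o
    induction o with
    | zero => intro _; rw [add_zero, hst]; simp [rel]
    | succ o ih =>
      intro ho
      have h := ih (by omega)
      have hf := frz_iff (n := n) hx hA m t o ht' (by omega) b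
      have e : TT n x A m + (jj x A m + t * ww x A m + (o + 1)) =
          TT n x A m + (jj x A m + t * ww x A m + o) + 1 := by ring
      rw [e]
      unfold ht at h ⊢
      rw [sum_range_succ, h]
      by_cases hs : sel n x A m b = t
      · simp only [hs, if_true] at hf
        simp only [rel, hs, if_true]
        by_cases ho' : o < gg A m
        · rw [if_pos (hf.2 ho'), if_pos (by omega), if_pos (by omega)]
          push_cast; ring
        · rw [if_neg (fun hh => ho' (hf.1 hh))]
          have e1 : ¬ (o + 1 ≤ gg A m) := by omega
          rw [if_neg e1]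
          by_cases e2 : o ≤ gg A m
          · have e3 : o = gg A m := by omega
            rw [if_pos e2, ← e3]; push_cast; ring
          · rw [if_neg e2]; push_cast; ring
      · simp only [hs, if_false] at hf
        simp only [rel, hs, if_false]
        by_cases ho' : o % (x + 1) = x
        · rw [if_pos (hf.2 ho')]
          have : (o + 1) % (x + 1) = 0 := by
            have h1 := Nat.mod_add_div o (x + 1)
            rw [ho'] at h1
            have : o + 1 = (x + 1) * (o / (x + 1) + 1) := by linarith
            rw [this]; exact Nat.mul_mod_right _ _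
          rw [this, ho']; push_cast; ring
        · rw [if_neg (fun hh => ho' (hf.1 hh))]
          have h2 : o % (x + 1) < x + 1 := Nat.mod_lt _ (by omega)
          have : (o + 1) % (x + 1) = o % (x + 1) + 1 := by
            rw [Nat.add_mod, Nat.mod_eq_of_lt (show 1 < x + 1 by omega)]
            exact Nat.mod_eq_of_lt (by omega)
          rw [this]; push_cast; ring
  have hrel0 : ∀ (s : Prop) [Decidable s], rel x (gg A m) s (ww x A m) = 0 := by
    intro s _
    unfold rel ww
    by_cases hs : s
    · have : ¬ ((x + 1) * gg A m ≤ gg A m) := by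
        have := gg_pos (A := A) m
        nlinarith
      rw [if_pos hs, if_neg this]; push_cast; ring
    · rw [if_neg hs, Nat.mul_mod_right]; simp
  have hstart : ∀ t, t ≤ MM n x A m →
      ht n x A (TT n x A m + (jj x A m + t * ww x A m)) b = -((x * hh A (m + 1) : ℕ) : ℤ) := by
    intro t
    induction t with
    | zero => intro _; rw [zero_mul, add_zero]; exact hend
    | succ t ih =>
      intro ht'
      have h := key t (by omega) (ih (by omega)) (ww x A m) le_rfl
      rw [hrel0, add_zero] at h
      rw [← h]
      congr 1; ring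
  intro t ht' o ho
  exact key t ht' (hstart t ht'.le) o ho

include hx hA in
lemma ht_TT (m : ℕ) (b : ℕ → Dg n) : ht n x A (TT n x A m) b = -((x * hh A m : ℕ) : ℤ) := by
  induction m with
  | zero => simp [TT, ht, hh]
  | succ m ih =>
    have h := (ht_window hx hA m b ih).2 (MM n x A m - 1)
      (by have := MM_pos (n := n) (x := x) (A := A) m; omega) (ww x A m) le_rfl
    have hrel0 : rel x (gg A m) (sel n x A m b = MM n x A m - 1) (ww x A m) = 0 := by
      unfold rel ww
      by_cases hs : sel n x A m b = MM n x A m - 1
      · have : ¬ ((x + 1) * gg A m ≤ gg A m) := by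
          have := gg_pos (A := A) m
          nlinarith
        rw [if_pos hs, if_neg this]; push_cast; ring
      · rw [if_neg hs, Nat.mul_mod_right]; simp
    rw [hrel0, add_zero] at h
    rw [← h]
    have hM := MM_pos (n := n) (x := x) (A := A) m
    have e : TT n x A (m + 1) =
        TT n x A m + (jj x A m + (MM n x A m - 1) * ww x A m + ww x A m) := by
      simp only [TT, len]
      obtain ⟨k, hk⟩ : ∃ k, MM n x A m = k + 1 := ⟨MM n x A m - 1, by omega⟩
      rw [hk]; simp; ring
    rw [e]

end pos

end sched

end Pool.Agent.H60.Besov
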